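import Pool.Agent.Q15.JT.NF5

/-! Representations whose reduction has distinct constituents: the residual algebra (project DC). -/

set_option autoImplicit false
set_option linter.unusedSectionVars false

open Matrix IsLocalRing

namespace Pool.Agent.Q15.DC

section res
variable {κ : Type} [Field κ] {G : Type} [Group G] {n : ℕ} {ι : Type} [Fintype ι] [DecidableEq ι]

/-- a multiplicity free representation over a field, trivial on `N`, with the projections `P i` to
its constituents -/
structure Res (N : Subgroup G) (r : G → Matrix (Fin n) (Fin n) κ)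
    (P : ι → Matrix (Fin n) (Fin n) κ) : Prop where
  one : ∀ x ∈ N, r x = 1
  mul : ∀ g h, r (g * h) = r g * r h
  ne : ∀ i, P i ≠ 0
  idem : ∀ i, P i * P i = P i
  orth : ∀ i j, i ≠ j → P i * P j = 0
  sum : ∑ i, P i = 1
  comm : ∀ i g, P i * r g = r g * P i
  cent : ∀ X, (∀ g, X * r g = r g * X) → ∃ c : ι → κ, X = ∑ i, c i • P i

variable {N : Subgroup G} {r : G → Matrix (Fin n) (Fin n) κ} {P : ι → Matrix (Fin n) (Fin n) κ}

theorem Res.inv (h : Res N r P) (g : G) : r g * r g⁻¹ = 1 := by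
  rw [← h.mul, mul_inv_cancel]
  exact h.one 1 N.one_mem

theorem Res.inv' (h : Res N r P) (g : G) : r g⁻¹ * r g = 1 := by
  rw [← h.mul, inv_mul_cancel]
  exact h.one 1 N.one_mem

theorem Res.out (h : Res N r P) (g : G) : r ((QuotientGroup.mk g : G ⧸ N).out) = r g := by
  obtain ⟨x, hx⟩ := QuotientGroup.mk_out_eq_mul N g
  rw [hx, h.mul, h.one _ x.2, mul_one]

theorem Res.out_inv (h : Res N r P) (g : G) : r ((QuotientGroup.mk g : G ⧸ N).out)⁻¹ = r g⁻¹ := by
  obtain ⟨x, hx⟩ := QuotientGroup.mk_out_eq_mul N g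
  rw [hx, _root_.mul_inv_rev, h.mul, h.one _ (N.inv_mem x.2), one_mul]

theorem Res.P_sum (h : Res N r P) (i : ι) (c : ι → κ) : P i * ∑ j, c j • P j = c i • P i := by
  rw [Finset.mul_sum, Finset.sum_eq_single i]
  · rw [Matrix.mul_smul, h.idem]
  · intro j _ hj
    rw [Matrix.mul_smul, h.orth i j hj.symm, smul_zero]
  · intro hi
    exact absurd (Finset.mem_univ i) hi

theorem Res.sum_P (h : Res N r P) (i : ι) (c : ι → κ) : (∑ j, c j • P j) * P i = c i • P i := by
  rw [Finset.sum_mul, Finset.sum_eq_single i]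
  · rw [Matrix.smul_mul, h.idem]
  · intro j _ hj
    rw [Matrix.smul_mul, h.orth j i hj, smul_zero]
  · intro hi
    exact absurd (Finset.mem_univ i) hi

/-- the average -/
theorem Res.avg (h : Res N r P) [Fintype (G ⧸ N)] (X : Matrix (Fin n) (Fin n) κ) :
    ∃ c : ι → κ, ∑ q : G ⧸ N, r q.out * X * r q.out⁻¹ = ∑ i, c i • P i := by
  apply h.cent
  intro g
  rw [Finset.sum_mul, Finset.mul_sum]
  symm
  refine Fintype.sum_equiv (MulAction.toPerm g) _ _ fun q => ?_
  have hq : (QuotientGroup.mk (g * q.out) : G ⧸ N) = g • q := by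
    conv_rhs => rw [← QuotientGroup.out_eq' q]
    rfl
  show r g * (r q.out * X * r q.out⁻¹) = r (g • q).out * X * r (g • q).out⁻¹ * r g
  rw [← hq, h.out, h.out_inv, h.mul, _root_.mul_inv_rev, h.mul]
  simp only [Matrix.mul_assoc]
  rw [h.inv', Matrix.mul_one]

theorem Res.trace_ne (h : Res N r P) [Fintype (G ⧸ N)] (hm : (Fintype.card (G ⧸ N) : κ) ≠ 0)
    (i : ι) : (P i).trace ≠ 0 ∧ ∀ X : Matrix (Fin n) (Fin n) κ, ∀ c : ι → κ,
      ∑ q : G ⧸ N, r q.out * X * r q.out⁻¹ = ∑ i, c i • P i →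
      c i * (P i).trace = (Fintype.card (G ⧸ N) : κ) * (P i * X).trace := by
  have key : ∀ X : Matrix (Fin n) (Fin n) κ, ∀ c : ι → κ,
      ∑ q : G ⧸ N, r q.out * X * r q.out⁻¹ = ∑ i, c i • P i →
      c i * (P i).trace = (Fintype.card (G ⧸ N) : κ) * (P i * X).trace := by
    intro X c hc
    have h1 := congrArg (fun M => (P i * M).trace) hc
    rw [h.P_sum, Matrix.trace_smul, smul_eq_mul, Finset.mul_sum, Matrix.trace_sum] at h1
    rw [← h1]
    have h2 : ∀ q : G ⧸ N, (P i * (r q.out * X * r q.out⁻¹)).trace = (P i * X).trace := by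
      intro q
      rw [← Matrix.mul_assoc, Matrix.trace_mul_comm, ← Matrix.mul_assoc, ← Matrix.mul_assoc,
        ← h.comm, Matrix.mul_assoc (P i), h.inv', Matrix.mul_one]
    rw [Finset.sum_congr rfl fun q _ => h2 q, Finset.sum_const, Finset.card_univ, nsmul_eq_mul]
  refine ⟨fun h0 => h.ne i ?_, key⟩
  ext a b
  obtain ⟨c, hc⟩ := h.avg (Matrix.single b a (1 : κ))
  have h1 := key _ c hc
  rw [h0, mul_zero, eq_comm, mul_eq_zero] at h1
  have h2 := h1.resolve_left hm
  rw [Matrix.trace_mul_single] at h2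
  simpa using h2

/-- the projections are in the span of the representation -/
theorem Res.mem_span (h : Res N r P) [Fintype (G ⧸ N)]
    (hm : (Fintype.card (G ⧸ N) : κ) ≠ 0) (i : ι) :
    ∃ t : G ⧸ N → κ, P i = ∑ q, t q • r q.out := by
  set m : κ := (Fintype.card (G ⧸ N) : κ) with hmdef
  have key : ∑ q : G ⧸ N, (r q.out⁻¹ * P i).trace • r q.out = (m / (P i).trace) • P i := by
    ext a b
    -- the averages of the elementary matrices
    have h1 : ∀ c : Fin n, ∀ d : Fin n, ∑ q : G ⧸ N, r q.out a b * r q.out⁻¹ c d =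
        ∑ j, (m * P j c b / (P j).trace) * P j a d := by
      intro c d
      obtain ⟨x, hx⟩ := h.avg (Matrix.single b c (1 : κ))
      have h2 : ∀ j, x j = m * P j c b / (P j).trace := by
        intro j
        obtain ⟨h3, h4⟩ := h.trace_ne hm j
        have h5 := h4 _ x hx
        rw [Matrix.trace_mul_single] at h5
        rw [eq_div_iff h3, h5, MulOpposite.op_one, one_smul]
      have h3 := congrFun (congrFun hx a) d
      rw [Matrix.sum_apply, Matrix.sum_apply] at h3
      simp only [Matrix.smul_apply, smul_eq_mul, h2] at h3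
      rw [← h3]
      refine Finset.sum_congr rfl fun q _ => ?_
      rw [Matrix.mul_apply, Finset.sum_eq_single c]
      · rw [Matrix.mul_single_apply_same, mul_one]
      · intro k _ hk
        rw [Matrix.mul_single_apply_of_ne _ _ _ _ _ hk, zero_mul]
      · intro hc
        exact absurd (Finset.mem_univ c) hc
    rw [Matrix.sum_apply]
    simp only [Matrix.smul_apply, smul_eq_mul, Matrix.trace, Matrix.diag_apply, Matrix.mul_apply]
    have h4 : ∑ q : G ⧸ N, (∑ c, ∑ d, r q.out⁻¹ c d * P i d c) * r q.out a b =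
        ∑ c, ∑ d, P i d c * ∑ q : G ⧸ N, r q.out a b * r q.out⁻¹ c d := by
      simp_rw [Finset.sum_mul, Finset.mul_sum]
      rw [Finset.sum_comm]
      refine Finset.sum_congr rfl fun c _ => ?_
      rw [Finset.sum_comm]
      refine Finset.sum_congr rfl fun d _ => Finset.sum_congr rfl fun q _ => ?_
      ring
    rw [h4]
    simp_rw [h1]
    have h5 : ∑ c, ∑ d, P i d c * ∑ j, (m * P j c b / (P j).trace) * P j a d =
        ∑ j, (m / (P j).trace) * (P j * P i * P j) a b := by
      simp_rw [Matrix.mul_apply, Finset.sum_mul, Finset.mul_sum]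
      rw [Finset.sum_congr rfl fun c _ => Finset.sum_comm, Finset.sum_comm]
      refine Finset.sum_congr rfl fun j _ => ?_
      refine Finset.sum_congr rfl fun c _ => Finset.sum_congr rfl fun d _ => ?_
      ring
    rw [h5, Finset.sum_eq_single i]
    · rw [h.idem, h.idem]
      rfl
    · intro j _ hj
      rw [h.orth j i hj, Matrix.zero_mul, Matrix.zero_apply, mul_zero]
    · intro hi
      exact absurd (Finset.mem_univ i) hi
  have h1 := (h.trace_ne hm i).1
  refine ⟨fun q => ((P i).trace / m) * (r q.out⁻¹ * P i).trace, ?_⟩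
  simp_rw [mul_smul]
  rw [← Finset.smul_sum, key, smul_smul, div_mul_div_cancel₀' h1, div_self hm, one_smul]

/-- a cocycle which is trivial on `N` and vanishes at the projection is zero -/
theorem Res.coc (h : Res N r P) [Fintype (G ⧸ N)] (hm : (Fintype.card (G ⧸ N) : κ) ≠ 0) (i : ι)
    {β : G → Matrix (Fin n) (Fin n) κ} (hβ : ∀ g k, β (g * k) = β g * r k + r g * β k)
    (hN : ∀ x ∈ N, β x = 0) (hP : ∀ g, (1 - P i) * β g * P i = β g) {t : G ⧸ N → κ}
    (ht : P i = ∑ q, t q • r q.out) (hz : ∑ q, t q • β q.out = 0) (g : G) : β g = 0 := by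
  set m : κ := (Fintype.card (G ⧸ N) : κ) with hmdef
  set φ : G → Matrix (Fin n) (Fin n) κ := fun g => β g * r g⁻¹ with hφ
  have h1 : ∀ g k, φ (g * k) = φ g + r g * φ k * r g⁻¹ := by
    intro g k
    show β (g * k) * r (g * k)⁻¹ = β g * r g⁻¹ + r g * (β k * r k⁻¹) * r g⁻¹
    rw [hβ, _root_.mul_inv_rev, h.mul, Matrix.add_mul]
    congr 1
    · rw [Matrix.mul_assoc, ← Matrix.mul_assoc (r k), h.inv, Matrix.one_mul]
    · simp only [Matrix.mul_assoc]
  have h2 : ∀ g, φ (QuotientGroup.mk g : G ⧸ N).out = φ g := by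
    intro g
    obtain ⟨x, hx⟩ := QuotientGroup.mk_out_eq_mul N g
    rw [hx, h1]
    have h3 : φ x = 0 := by
      show β x * r (x : G)⁻¹ = 0
      rw [hN x x.2, Matrix.zero_mul]
    rw [h3, Matrix.mul_zero, Matrix.zero_mul, add_zero]
  set T := ∑ q : G ⧸ N, φ q.out with hT
  have h3 : ∀ g, T = m • φ g + r g * T * r g⁻¹ := by
    intro g
    have h4 : T = ∑ q : G ⧸ N, φ (g * q.out) := by
      symm
      refine Fintype.sum_equiv (MulAction.toPerm g) _ _ fun q => ?_
      have hq : (QuotientGroup.mk (g * q.out) : G ⧸ N) = g • q := by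
        conv_rhs => rw [← QuotientGroup.out_eq' q]
        rfl
      show φ (g * q.out) = φ (g • q).out
      rw [← hq, h2]
    have h5 : ∑ q : G ⧸ N, φ (g * q.out) = m • φ g + r g * T * r g⁻¹ := by
      simp_rw [h1 g]
      rw [Finset.sum_add_distrib, Finset.sum_const, Finset.card_univ, ← Nat.cast_smul_eq_nsmul κ,
        ← Finset.sum_mul, ← Finset.mul_sum]
    exact h4.trans h5
  obtain ⟨s, hs⟩ : ∃ s, s = m⁻¹ • T := ⟨_, rfl⟩
  have h6 : ∀ g, β g = s * r g - r g * s := by
    intro g
    have h7 : φ g = s - r g * s * r g⁻¹ := by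
      have h8 := congrArg (fun X => m⁻¹ • X) (h3 g)
      simp only [smul_add, smul_smul, inv_mul_cancel₀ hm, one_smul] at h8
      rw [← hs] at h8
      have h9 : m⁻¹ • (r g * T * r g⁻¹) = r g * s * r g⁻¹ := by
        rw [hs, Matrix.mul_smul, Matrix.smul_mul]
      rw [h9] at h8
      exact eq_sub_of_add_eq h8.symm
    have h10 : β g = φ g * r g := by
      show β g = β g * r g⁻¹ * r g
      rw [Matrix.mul_assoc, h.inv', Matrix.mul_one]
    rw [h10, h7, Matrix.sub_mul]
    congr 1
    rw [Matrix.mul_assoc, h.inv', Matrix.mul_one]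
  -- `s` lies in the corner
  have h7 : (1 - P i) * s * P i = s := by
    have h8 : (1 - P i) * T * P i = T := by
      rw [hT, Finset.mul_sum, Finset.sum_mul]
      refine Finset.sum_congr rfl fun q _ => ?_
      show (1 - P i) * (β q.out * r q.out⁻¹) * P i = β q.out * r q.out⁻¹
      rw [← Matrix.mul_assoc, Matrix.mul_assoc _ (r q.out⁻¹), ← h.comm, ← Matrix.mul_assoc, hP]
    rw [hs, Matrix.mul_smul, Matrix.smul_mul, h8]
  have h8 : s * P i - P i * s = 0 := by
    rw [← hz, ht, Finset.mul_sum, Finset.sum_mul, ← Finset.sum_sub_distrib]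
    refine Finset.sum_congr rfl fun q _ => ?_
    rw [h6, smul_sub, Matrix.mul_smul s, Matrix.smul_mul (t q)]
  have h9 : P i * s = 0 := by
    rw [← h7, ← Matrix.mul_assoc, ← Matrix.mul_assoc, Matrix.mul_sub, Matrix.mul_one, h.idem,
      sub_self, Matrix.zero_mul, Matrix.zero_mul]
  have h10 : s * P i = s := by
    conv_lhs => rw [← h7]
    rw [Matrix.mul_assoc, h.idem, h7]
  have h11 : s = 0 := by
    rw [h10, h9, sub_zero] at h8
    exact h8
  rw [h6, h11, Matrix.zero_mul, Matrix.mul_zero, sub_zero]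

end res

end Pool.Agent.Q15.DC
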