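import Pool.Agent.Q15.DC.A9
import Pool.Agent.TH831.OE.Dat

/-! The cyclotomic character of order `p` and conductor `p ^ 2`, values at all primes (project DC). -/

set_option autoImplicit false
set_option linter.unusedSectionVars false

open NumberField Matrix IsLocalRing Pool.Agent.W569.FM Pool.Agent.W571.FM Pool.Agent.W569.UF
  Pool.Agent.W134.FM
  Pool.Agent.Q15.FMNT Pool.Agent.Q15.FMMain Pool.Agent.Q15.FMScal Pool.Agent.Q15.FM2C
  Pool.Agent.Q15.JT Pool.Agent.TH831.OT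

namespace Pool.Agent.Q15.DC

section
variable (p : ℕ) [hp : Fact p.Prime]

theorem theta_nat (u : (ZMod (p ^ 2))ˣ) (q : ℕ) (hq : q.Prime) (hqp : q ≠ p) (a : ℕ)
    (ha : q ^ (p - 1) = 1 + p * a) (h : (u : ZMod (p ^ 2)) = (q : ZMod (p ^ 2))) :
    theta p u = Multiplicative.ofAdd (-(a : ZMod p)) := by
  have : NeZero (p ^ 2) := ⟨pow_ne_zero 2 hp.out.ne_zero⟩
  rw [theta_apply]
  congr 2
  have hcop : IsCoprime (q : ℤ) (p : ℤ) :=
    Nat.isCoprime_iff_coprime.2 ((Nat.coprime_primes hq hp.out).2 hqp)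
  have h1 : (p : ℤ) ^ 2 ∣ ((u : ZMod (p ^ 2)).val : ℤ) - (q : ℤ) * 1 := by
    have h2 : ((((u : ZMod (p ^ 2)).val : ℤ) - (q : ℤ) * 1 : ℤ) : ZMod (p ^ 2)) = 0 := by
      push_cast
      rw [ZMod.natCast_zmod_val, h]
      ring
    have h3 := (ZMod.intCast_zmod_eq_zero_iff_dvd _ _).1 h2
    exact_mod_cast h3
  have h2 := fermat_add p hcop (isCoprime_one_left (x := (p : ℤ))) h1
  rw [h2, one_pow, sub_self, Int.zero_ediv, Int.cast_zero, add_zero]
  have h3 : ((q : ℤ) ^ (p - 1) - 1) / (p : ℤ) = a := by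
    have h4 : (q : ℤ) ^ (p - 1) = 1 + p * a := by exact_mod_cast ha
    rw [h4, add_sub_cancel_left, Int.mul_ediv_cancel_left]
    exact_mod_cast hp.out.ne_zero
  rw [h3, Int.cast_natCast]

theorem exists_psi : ∃ (ψ : GF ℚ →* Multiplicative (ZMod p)),
    IsOpen (ψ.ker : Set (GF ℚ)) ∧
    (∀ P : Ideal (OO ℚ), P.IsMaximal → (p : OO ℚ) ∉ P → ∀ τ : GF ℚ, InInertia P τ → ψ τ = 1) ∧
    (∃ g, ψ g ≠ 1) ∧
    (∀ q : ℕ, q.Prime → q ≠ p → ∀ a : ℕ, q ^ (p - 1) = 1 + p * a → ∀ P : Ideal (OO ℚ),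
      P.IsMaximal → (q : OO ℚ) ∈ P → ∀ σ : GF ℚ, FrobAt q P σ →
      ψ σ = Multiplicative.ofAdd (-(a : ZMod p))) := by
  have hl0 : p ^ 2 ≠ 0 := pow_ne_zero 2 hp.out.ne_zero
  have : NeZero (p ^ 2) := ⟨hl0⟩
  obtain ⟨ζ, hζ⟩ := HasEnoughRootsOfUnity.exists_primitiveRoot (AlgebraicClosure ℚ) (p ^ 2)
  have hζi : IsIntegral ℤ ζ :=
    IsIntegral.of_pow (Nat.pos_of_ne_zero hl0) (by rw [hζ.pow_eq_one]; exact isIntegral_one)
  let z : OO ℚ := ⟨ζ, hζi⟩
  have hz : (z : AlgebraicClosure ℚ) = ζ := rfl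
  have hzp : ∀ a : ℕ, ((z ^ a : OO ℚ) : AlgebraicClosure ℚ) = ζ ^ a := fun a =>
    map_pow (algebraMap (OO ℚ) (AlgebraicClosure ℚ)) z _
  have hzprim : IsPrimitiveRoot z (p ^ 2) := by
    have h1 : IsPrimitiveRoot (algebraMap (OO ℚ) (AlgebraicClosure ℚ) z) (p ^ 2) := hζ
    exact h1.of_map_of_injective RingOfIntegers.coe_injective
  have hzl : z ^ (p ^ 2) = 1 := hzprim.pow_eq_one
  set χ : GF ℚ →* (ZMod (p ^ 2))ˣ := hζ.autToPow ℚ with hχ
  have hspec : ∀ g : GF ℚ, ζ ^ ((χ g : (ZMod (p ^ 2))ˣ) : ZMod (p ^ 2)).val = g ζ :=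
    fun g => hζ.autToPow_spec ℚ g
  have hact : ∀ g : GF ℚ, g • z = z ^ ((χ g : (ZMod (p ^ 2))ˣ) : ZMod (p ^ 2)).val := by
    intro g
    apply RingOfIntegers.ext
    rw [hzp, hspec]
    rfl
  have hval : ∀ (g : GF ℚ) (a : ℕ), g • z = z ^ a →
      ((χ g : (ZMod (p ^ 2))ˣ) : ZMod (p ^ 2)) = a := by
    intro g a h
    rw [hact] at h
    have h1 := congrArg (fun y : OO ℚ => (y : AlgebraicClosure ℚ)) h
    simp only [hzp] at h1
    have h2 : ((χ g : (ZMod (p ^ 2))ˣ) : ZMod (p ^ 2)).val ≡ a [MOD (p ^ 2)] := by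
      rw [pow_eq_pow_mod a hζ.pow_eq_one] at h1
      have h3 := hζ.pow_inj (ZMod.val_lt _) (Nat.mod_lt _ (Nat.pos_of_ne_zero hl0)) h1
      rw [h3]
      exact Nat.mod_modEq _ _
    have h3 := (ZMod.natCast_eq_natCast_iff _ _ _).2 h2
    rwa [ZMod.natCast_zmod_val] at h3
  have hnotmem : ∀ P : Ideal (OO ℚ), P.IsMaximal → (p : OO ℚ) ∉ P →
      ((p ^ 2 : ℕ) : OO ℚ) ∉ P := by
    intro P hP hpP h
    rw [Nat.cast_pow] at h
    exact hpP (hP.isPrime.mem_of_pow_mem 2 h)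
  refine ⟨(theta p).comp χ, ?_, ?_, ?_, ?_⟩
  · have h1 : IsOpen (MulAction.stabilizer (GF ℚ) ζ : Set (GF ℚ)) := isOpen_stab ζ
    refine Subgroup.isOpen_mono (H₁ := MulAction.stabilizer (GF ℚ) ζ) ?_ h1
    intro g hg
    rw [MulAction.mem_stabilizer_iff] at hg
    have h2 : g • z = z ^ 1 := by
      apply RingOfIntegers.ext
      rw [pow_one]
      exact hg
    have h3 := hval g 1 h2
    rw [MonoidHom.mem_ker]
    show theta p (χ g) = 1
    have h4 : χ g = 1 := Units.ext (by rw [h3]; simp)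
    rw [h4, map_one]
  · intro P hP hlP τ hτ
    have h1 := hτ z
    have h2 : τ • z = z := by
      refine root_eq hP.ne_top (hnotmem P hP hlP) ?_ hzl h1 hl0
      rw [← smul_pow', hzl, smul_one]
    have h3 := hval τ 1 (by rw [pow_one, h2])
    show theta p (χ τ) = 1
    have h4 : χ τ = 1 := Units.ext (by rw [h3]; simp)
    rw [h4, map_one]
  · have hcop : Nat.Coprime (1 + p * 1) (p ^ 2) := by
      apply Nat.Coprime.pow_right
      simp
    have h1 : IsPrimitiveRoot (ζ ^ (1 + p * 1)) (p ^ 2) := hζ.pow_of_coprime _ hcop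
    obtain ⟨g, hg⟩ := exists_aut (F := ℚ) (minpoly_root (Nat.pos_of_ne_zero hl0) h1 hζ)
    refine ⟨g, ?_⟩
    have h3 : g • z = z ^ (1 + p * 1) := by
      apply RingOfIntegers.ext
      rw [hzp]
      exact hg
    have h4 := hval g _ h3
    show theta p (χ g) ≠ 1
    rw [theta_one_add p _ 1 h4]
    intro h5
    have h6 := congrArg Multiplicative.toAdd h5
    rw [toAdd_ofAdd, toAdd_one, Nat.cast_one] at h6
    exact one_ne_zero h6
  · intro q hq hqp a hqa P hP hqP σ hσ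
    have hpP : (p : OO ℚ) ∉ P := fun h => hqp (char_unique hP hq hp.out hqP h)
    have h1 := hσ z
    have h2 : σ • z = z ^ q := by
      refine root_eq hP.ne_top (hnotmem P hP hpP) ?_ ?_ h1 hl0
      · rw [← smul_pow', hzl, smul_one]
      · rw [← pow_mul, mul_comm, pow_mul, hzl, one_pow]
    have h3 := hval σ q h2
    exact theta_nat p _ q hq hqp a hqa h3

/-- the field `ℚ` has exactly one extension of degree `p` unramified outside `p` -/
theorem exists_one' (hp2 : p ≠ 2) : ∃ ψ : GF ℚ →* Multiplicative (ZMod p), OneE p ψ ∧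
    (∀ q : ℕ, q.Prime → q ≠ p → ∀ a : ℕ, q ^ (p - 1) = 1 + p * a → ∀ P : Ideal (OO ℚ),
      P.IsMaximal → (q : OO ℚ) ∈ P → ∀ σ : GF ℚ, FrobAt q P σ →
      ψ σ = Multiplicative.ofAdd (-(a : ZMod p))) := by
  obtain ⟨ψ, ho, hur, hne, hfr⟩ := exists_psi p
  obtain ⟨P0, hP0, hpP0, -⟩ := (Pool.Agent.W571.FM.main p hp.out).1
  obtain ⟨d⟩ := Pool.Agent.TH831.OE.exists_dat (p := p) hp2 ∅ (fun l hl => by simp at hl)
    (fun _ => 1) (fun l hl => by simp at hl) P0 hP0 hpP0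
  have hsp : ∀ f : GF ℚ →* Multiplicative (ZMod p), IsOpen (f.ker : Set (GF ℚ)) →
      (∀ P : Ideal (OO ℚ), P.IsMaximal → (p : OO ℚ) ∉ P → ∀ τ, InInertia P τ → f τ = 1) →
      ∀ g, Multiplicative.toAdd (f g) =
        Multiplicative.toAdd (d.ψp g) * Multiplicative.toAdd (f d.γ) := by
    intro f hf hfu g
    have h1 := d.span f hf (fun g hg => by
      obtain ⟨P, hP, -, hpP, hg⟩ := hg
      exact hfu P hP hpP g hg) g
    rwa [Finset.filter_empty, Finset.sum_empty, add_zero] at h1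
  refine ⟨ψ, ⟨ho, hur, hne, fun f hf hfu => ?_⟩, hfr⟩
  set c := Multiplicative.toAdd (ψ d.γ) with hc
  have hc0 : c ≠ 0 := by
    intro h0
    obtain ⟨g, hg⟩ := hne
    apply hg
    apply Multiplicative.toAdd.injective
    rw [hsp ψ ho hur g, ← hc, h0, mul_zero, toAdd_one]
  have : NeZero p := ⟨hp.out.ne_zero⟩
  refine ⟨(c⁻¹ * Multiplicative.toAdd (f d.γ)).val, fun g => ?_⟩
  apply Multiplicative.toAdd.injective
  rw [toAdd_pow, nsmul_eq_mul, ZMod.natCast_zmod_val, hsp f hf hfu g, hsp ψ ho hur g, ← hc]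
  field_simp

end

end Pool.Agent.Q15.DC
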