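import Pool.Agent.Q15.DC.A1

/-! Representations whose reduction has distinct constituents: the first order relations (project DC). -/

set_option autoImplicit false
set_option linter.unusedSectionVars false

open Matrix IsLocalRing
open Pool.Agent.Q15.JT

namespace Pool.Agent.Q15.DC

theorem pow_conj {M : Type} [Monoid M] {a b : M} {q : ℕ} (h : a * b = b ^ q * a) (k : ℕ) :
    a * b ^ k = b ^ (q * k) * a := by
  induction k with
  | zero => simp
  | succ k ih => rw [pow_succ, ← mul_assoc, ih, mul_assoc, h, ← mul_assoc, ← pow_add, Nat.mul_succ]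

theorem pow_pow_conj {M : Type} [Monoid M] {a b : M} {q : ℕ} (h : a * b = b ^ q * a) (k : ℕ) :
    a ^ k * b = b ^ (q ^ k) * a ^ k := by
  induction k with
  | zero => simp
  | succ k ih =>
    rw [pow_succ', mul_assoc, ih, ← mul_assoc, pow_conj h, mul_assoc, pow_succ' q]

/-- the standing data -/
structure Base (E : Type) [NormedField E] [IsUltrametricDist E] (G : Type) [Group G]
    [TopologicalSpace G] (p : ℕ) (π : OI E) (N : Subgroup G) (U : Set G)
    (T : G → G → ℕ → Prop) (h : ℕ) : Prop where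
  hp : p.Prime
  hp2 : p ≠ 2
  hpE : ‖(p : E)‖ < 1
  hπ0 : π ≠ 0
  hπ : π ∈ maximalIdeal (OI E)
  normal : ∀ g, ∀ x ∈ N, g * x * g⁻¹ ∈ N
  isOpen : IsOpen (N : Set G)
  UN : ∀ u ∈ U, u ∈ N
  TN : ∀ τ σ q, T τ σ q → τ ∈ N
  pow : ∀ g, g ^ h ∈ N
  idx : ((Nat.card (G ⧸ N) : ℕ) : ResidueField (OI E)) ≠ 0
  fin : Finite (G ⧸ N)

/-- the matrices of a representation which are congruent to the identity modulo `π` on `N` -/
structure Sys {E : Type} [NormedField E] [IsUltrametricDist E] {G : Type} [Group G]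
    [TopologicalSpace G] (π : OI E) (N : Subgroup G) (U : Set G) (T : G → G → ℕ → Prop) {n : ℕ}
    (R D : G → Matrix (Fin n) (Fin n) (OI E)) : Prop where
  one : R 1 = 1
  mul : ∀ g h, R (g * h) = R g * R h
  cont : Cts R
  eq : ∀ x ∈ N, R x = 1 + π • D x
  ur : ∀ u ∈ U, R u = 1
  rel : ∀ τ σ q, T τ σ q → R σ * R τ = R τ ^ q * R σ

/-- the conditions at the tame primes -/
def Loc {E : Type} [NormedField E] [IsUltrametricDist E] {G : Type} [Group G]
    (π : OI E) (ψ : G → ResidueField (OI E)) (h : ℕ) (T : G → G → ℕ → Prop) {n : ℕ} {ι : Type}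
    (r : G → Matrix (Fin n) (Fin n) (ResidueField (OI E)))
    (P : ι → Matrix (Fin n) (Fin n) (ResidueField (OI E))) : Prop :=
  ∀ τ σ q, T τ σ q →
    (∀ X, r σ * X = (q : ResidueField (OI E)) • (X * r σ) → X = 0) ∨
    ((∃ a : OI E, ((q ^ h : ℕ) : OI E) - 1 = π * a ∧ residue (OI E) a = ψ (σ ^ h) ∧
        ψ (σ ^ h) ≠ 0) ∧
      (((∀ X, r σ * X = X * r σ → ∀ i, P i * X = X * P i) ∧
        (∀ X, r σ * X = (q : ResidueField (OI E)) • (X * r σ) → ∀ i, P i * X * P i = 0)) ∨
       ((q : ResidueField (OI E)) = 1 ∧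
        ∀ X Y, r σ * X = X * r σ → r σ * Y = Y * r σ → X * Y = Y * X)))

/-- the class hypothesis -/
def Cls {κ : Type} [Field κ] {G : Type} [Group G] [TopologicalSpace G] (N : Subgroup G)
    (U : Set G) (T : G → G → ℕ → Prop) (ψ : G → κ) {n : ℕ} {ι : Type} [Fintype ι]
    (r : G → Matrix (Fin n) (Fin n) κ) (P : ι → Matrix (Fin n) (Fin n) κ) : Prop :=
  ∀ f : G → Matrix (Fin n) (Fin n) κ, (∀ x ∈ N, ∀ y ∈ N, f (x * y) = f x + f y) →
    (∀ g, ∀ x ∈ N, f (g * x * g⁻¹) = r g * f x * r g⁻¹) →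
    IsOpen {x | x ∈ N ∧ f x = 0} → (∀ u ∈ U, f u = 0) → (∀ τ σ q, T τ σ q → f τ = 0) →
    ∃ c : ι → κ, ∀ x ∈ N, f x = ψ x • ∑ i, c i • P i

section
variable {E : Type} [NormedField E] [IsUltrametricDist E] {G : Type} [Group G]
  [TopologicalSpace G] {p : ℕ} {π : OI E} {N : Subgroup G} {U : Set G} {T : G → G → ℕ → Prop}
  {h : ℕ} {ψ : G → ResidueField (OI E)}

theorem Base.hpm (hB : Base E G p π N U T h) : (p : OI E) ∈ maximalIdeal (OI E) := by
  rw [← residue_eq_zero_iff, (base E).2.1]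
  push_cast
  exact hB.hpE

theorem Base.charP (hB : Base E G p π N U T h) : CharP (ResidueField (OI E)) p := by
  refine (CharP.charP_iff_prime_eq_zero hB.hp).2 ?_
  have h1 := (residue_eq_zero_iff _).2 hB.hpm
  rwa [map_natCast] at h1

theorem Base.res0 (hB : Base E G p π N U T h) : residue (OI E) π = 0 :=
  (residue_eq_zero_iff π).2 hB.hπ

variable {n : ℕ} {R D : G → Matrix (Fin n) (Fin n) (OI E)}

theorem Sys.pow (hS : Sys π N U T R D) (g : G) (k : ℕ) : R (g ^ k) = R g ^ k := by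
  induction k with
  | zero => rw [pow_zero, pow_zero, hS.one]
  | succ k ih => rw [pow_succ, pow_succ, hS.mul, ih]

theorem Sys.inv (hS : Sys π N U T R D) (g : G) : R g * R g⁻¹ = 1 := by
  rw [← hS.mul, mul_inv_cancel, hS.one]

theorem Sys.inv' (hS : Sys π N U T R D) (g : G) : R g⁻¹ * R g = 1 := by
  rw [← hS.mul, inv_mul_cancel, hS.one]

/-- the law of multiplication -/
theorem Sys.law (hB : Base E G p π N U T h) (hS : Sys π N U T R D) {x y : G} (hx : x ∈ N)
    (hy : y ∈ N) : D (x * y) = D x + D y + π • (D x * D y) := by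
  apply smul_cancel hB.hπ0
  have h1 := hS.eq _ (N.mul_mem hx hy)
  rw [hS.mul, hS.eq x hx, hS.eq y hy] at h1
  have h2 : π • D (x * y) = (1 + π • D x) * (1 + π • D y) - 1 := by rw [h1]; abel
  rw [h2]
  simp only [Matrix.add_mul, Matrix.mul_add, Matrix.one_mul, Matrix.mul_one, Matrix.smul_mul,
    Matrix.mul_smul, smul_add, smul_smul]
  abel

theorem Sys.equi (hB : Base E G p π N U T h) (hS : Sys π N U T R D) (g : G) {x : G} (hx : x ∈ N) :
    D (g * x * g⁻¹) = R g * D x * R g⁻¹ := by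
  apply smul_cancel hB.hπ0
  have h1 := hS.eq _ (hB.normal g x hx)
  rw [hS.mul, hS.mul, hS.eq x hx, Matrix.mul_add, Matrix.add_mul, Matrix.mul_one, hS.inv,
    Matrix.mul_smul, Matrix.smul_mul] at h1
  exact (add_left_cancel h1).symm

/-- the relations at the tame primes -/
theorem Sys.tame (hB : Base E G p π N U T h) (hS : Sys π N U T R D) {τ σ : G} {q : ℕ}
    (hT : T τ σ q) {c : OI E} (hc : c ≠ 0) {M : Matrix (Fin n) (Fin n) (OI E)}
    (hM : D τ = c • M) :
    red (R σ) * red M = (q : ResidueField (OI E)) • (red M * red (R σ)) ∧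
    ∀ a : OI E, ((q ^ h : ℕ) : OI E) - 1 = π * a →
      red (D (σ ^ h)) * red M - red M * red (D (σ ^ h)) = residue (OI E) a • red M := by
  have hRτ : R τ = 1 + (π * c) • M := by rw [hS.eq τ (hB.TN τ σ q hT), hM, smul_smul]
  constructor
  · have h1 := hS.rel τ σ q hT
    rw [hRτ] at h1
    obtain ⟨y, -, hy⟩ := pow_expand ((π * c) • M) q
    rw [hy] at h1
    have hq : ((q : ℕ) : Matrix (Fin n) (Fin n) (OI E)) = (q : OI E) • 1 := by
      rw [Nat.cast_smul_eq_nsmul, nsmul_one]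
    have hq2 : (((q.choose 2 : ℕ) : ℕ) : Matrix (Fin n) (Fin n) (OI E)) =
        ((q.choose 2 : ℕ) : OI E) • 1 := by
      rw [Nat.cast_smul_eq_nsmul, nsmul_one]
    rw [hq, hq2] at h1
    have e0 : R σ * M = (q : OI E) • (M * R σ) +
        π • ((c * (q.choose 2 : ℕ)) • (M * M * R σ) + (π * (c * c)) • (M * M * M * y * R σ)) := by
      apply smul_cancel (mul_ne_zero hB.hπ0 hc)
      have h3 := sub_eq_zero.2 h1
      rw [← sub_eq_zero]
      rw [← h3]
      ext i j
      simp only [pow_succ, pow_zero, one_mul, Matrix.smul_mul, Matrix.mul_smul, Matrix.mul_add,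
        Matrix.add_mul, Matrix.one_mul, Matrix.mul_one, smul_add, smul_smul, Matrix.mul_assoc,
        Matrix.sub_apply, Matrix.add_apply, Matrix.smul_apply, smul_eq_mul]
      ring
    have e1 := congrArg red e0
    rw [red_mul, red_add, red_smul, red_smul, red_mul, hB.res0, zero_smul, add_zero,
      map_natCast] at e1
    exact e1
  · intro a ha
    have h1 := pow_pow_conj (hS.rel τ σ q hT) h
    rw [← hS.pow, hRτ, hS.eq _ (hB.pow σ)] at h1
    exact (Pool.Agent.Q15.JT.rel (OI E) p hB.hp hB.hp2 hB.hpm π c hB.hπ0 hB.hπ hc n (q ^ h) (D (σ ^ h)) M h1).1 a ha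

/-- the reduction is trivial on `N` -/
theorem Sys.red_one (hB : Base E G p π N U T h) (hS : Sys π N U T R D) {x : G} (hx : x ∈ N) :
    red (R x) = 1 := by
  rw [hS.eq x hx, red_add, red_smul, hB.res0, zero_smul, add_zero, JT.red_one]

theorem Sys.comm_pow (hB : Base E G p π N U T h) (hS : Sys π N U T R D) (σ : G) :
    red (R σ) * red (D (σ ^ h)) = red (D (σ ^ h)) * red (R σ) := by
  have h1 := hS.equi hB σ (hB.pow σ)
  have h2 : σ * σ ^ h * σ⁻¹ = σ ^ h := by
    rw [← pow_succ', pow_succ, mul_inv_cancel_right]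
  rw [h2] at h1
  rw [← red_mul, ← red_mul]
  conv_rhs => rw [h1]
  rw [Matrix.mul_assoc (R σ * D (σ ^ h)), hS.inv', Matrix.mul_one]

variable {ι : Type} [Fintype ι] [DecidableEq ι]
  {P : ι → Matrix (Fin n) (Fin n) (ResidueField (OI E))}

/-- the consequences of the conditions at the tame primes -/
theorem Sys.loc (hB : Base E G p π N U T h) (hS : Sys π N U T R D)
    (hL : Loc π ψ h T (fun g => red (R g)) P) {τ σ : G} {q : ℕ}
    (hT : T τ σ q) {c : OI E} (hc : c ≠ 0) {M : Matrix (Fin n) (Fin n) (OI E)}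
    (hM : D τ = c • M) :
    red M = 0 ∨ ((∀ i, P i * red M * P i = 0) ∧ ψ (σ ^ h) ≠ 0 ∧
      (∀ i, P i * red (D (σ ^ h)) = red (D (σ ^ h)) * P i) ∧
      red (D (σ ^ h)) * red M - red M * red (D (σ ^ h)) = ψ (σ ^ h) • red M) := by
  obtain ⟨h1, h2⟩ := hS.tame hB hT hc hM
  rcases hL τ σ q hT with h3 | ⟨⟨a, ha1, ha2, ha3⟩, ⟨h4, h5⟩ | ⟨h4, h5⟩⟩
  · exact Or.inl (h3 _ h1)
  · right
    refine ⟨h5 _ h1, ha3, h4 _ (hS.comm_pow hB σ), ?_⟩
    rw [← ha2]
    exact h2 a ha1
  · left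
    have h6 := h2 a ha1
    rw [h4, one_smul] at h1
    rw [h5 _ _ (hS.comm_pow hB σ) h1, sub_self, ha2] at h6
    exact (smul_eq_zero.1 h6.symm).resolve_left ha3

end

/-- pigeonhole -/
theorem exists_top {κ : Type} [Field κ] {p : ℕ} [CharP κ p] {ι : Type} [Fintype ι] [Nonempty ι]
    (hι : Fintype.card ι < p) (c : ι → κ) : ∃ i, ∀ j, c j ≠ c i + 1 := by
  classical
  by_contra hcon
  push Not at hcon
  obtain ⟨i0⟩ := ‹Nonempty ι›
  have hall : ∀ k : ℕ, ∃ j, c j = c i0 + k := by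
    intro k
    induction k with
    | zero => exact ⟨i0, by simp⟩
    | succ k ih =>
      obtain ⟨j, hj⟩ := ih
      obtain ⟨j', hj'⟩ := hcon j
      exact ⟨j', by rw [hj', hj]; push_cast; ring⟩
  have hinj : Set.InjOn (fun k : ℕ => c i0 + (k : κ)) (Finset.range p : Set ℕ) := by
    intro a ha b hb hab
    have h1 : ((a : ℕ) : κ) = b := add_left_cancel hab
    have h2 := (CharP.natCast_eq_natCast κ p).1 h1
    exact Nat.ModEq.eq_of_lt_of_lt h2 (by simpa using ha) (by simpa using hb)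
  have hfin : (Finset.image (fun k : ℕ => c i0 + (k : κ)) (Finset.range p)).card = p := by
    rw [Finset.card_image_of_injOn hinj, Finset.card_range]
  have hsub : Finset.image (fun k : ℕ => c i0 + (k : κ)) (Finset.range p) ⊆
      Finset.image c Finset.univ := by
    intro x hx
    obtain ⟨k, -, rfl⟩ := Finset.mem_image.1 hx
    obtain ⟨j, hj⟩ := hall k
    exact Finset.mem_image.2 ⟨j, Finset.mem_univ _, hj⟩
  have h1 := Finset.card_le_card hsub
  have h2 : (Finset.image c Finset.univ).card ≤ Fintype.card ι := Finset.card_image_le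
  omega

end Pool.Agent.Q15.DC
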