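import Pool.Agent.Q15.DC.A2

/-! Representations whose reduction has distinct constituents: diagonal blocks (project DC). -/

set_option autoImplicit false
set_option linter.unusedSectionVars false

open Matrix IsLocalRing
open Pool.Agent.Q15.JT

namespace Pool.Agent.Q15.DC

section
variable {E : Type} [NormedField E] [IsUltrametricDist E] {G : Type} [Group G]
  [TopologicalSpace G] {p : ℕ} {π : OI E} {N : Subgroup G} {U : Set G} {T : G → G → ℕ → Prop}
  {h : ℕ} {ψ : G → ResidueField (OI E)} {n : ℕ} {R D : G → Matrix (Fin n) (Fin n) (OI E)}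

theorem open_lt {F : G → E} (hF : Continuous F) {ε : ℝ} : IsOpen {g | ‖F g‖ < ε} :=
  isOpen_lt hF.norm continuous_const

theorem open_red {m : ℕ} {F : G → Matrix (Fin m) (Fin n) (OI E)} (hF : Cts F) :
    IsOpen {g | red (F g) = 0} := by
  have h1 : {g | red (F g) = 0} = ⋂ i, ⋂ j, {g | ‖((F g i j : OI E) : E)‖ < 1} := by
    ext g
    simp only [Set.mem_setOf_eq, Set.mem_iInter]
    constructor
    · intro h i j
      have h2 := congrFun (congrFun h i) j
      exact (residue_OI _).1 h2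
    · intro h
      ext i j
      exact (residue_OI _).2 (h i j)
  rw [h1]
  exact isOpen_iInter_of_finite fun i => isOpen_iInter_of_finite fun j => open_lt (hF i j)

theorem Sys.open_D (hB : Base E G p π N U T h) (hS : Sys π N U T R D) :
    IsOpen {x | x ∈ N ∧ red (D x) = 0} := by
  have hπE : 0 < ‖(π : E)‖ := by
    rw [norm_pos_iff]
    exact fun h0 => hB.hπ0 (Subtype.ext h0)
  have h1 : {x | x ∈ N ∧ red (D x) = 0} =
      (N : Set G) ∩ ⋂ i, ⋂ j, {g | ‖(((R g - 1) i j : OI E) : E)‖ < ‖(π : E)‖} := by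
    ext g
    simp only [Set.mem_setOf_eq, Set.mem_iInter, Set.mem_inter_iff, SetLike.mem_coe]
    refine and_congr_right fun hg => ?_
    have h2 : ∀ i j, ‖(((R g - 1) i j : OI E) : E)‖ = ‖(π : E)‖ * ‖((D g i j : OI E) : E)‖ := by
      intro i j
      rw [hS.eq g hg, add_sub_cancel_left, ← norm_mul]
      rfl
    have h3 : ∀ i j, ‖(((R g - 1) i j : OI E) : E)‖ < ‖(π : E)‖ ↔
        residue (OI E) (D g i j) = 0 := by
      intro i j
      rw [h2, residue_OI]
      exact mul_lt_iff_lt_one_right hπE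
    constructor
    · intro h4 i j
      exact (h3 i j).2 (congrFun (congrFun h4 i) j)
    · intro h4
      ext i j
      exact (h3 i j).1 (h4 i j)
  rw [h1]
  refine hB.isOpen.inter (isOpen_iInter_of_finite fun i => isOpen_iInter_of_finite fun j => ?_)
  exact open_lt ((hS.cont.sub (Cts.const 1)) i j)

theorem open_sub [IsTopologicalGroup G] {A : Type} [AddCommGroup A] {f : G → A}
    (hf : ∀ x ∈ N, ∀ y ∈ N, f (x * y) = f x + f y) {V : Set G} (hV : IsOpen V) (h1 : 1 ∈ V)
    (hVN : ∀ x ∈ V, x ∈ N ∧ f x = 0) : IsOpen {x | x ∈ N ∧ f x = 0} := by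
  have hf1 : f 1 = 0 := (hVN 1 h1).2
  let H : Subgroup G :=
    { carrier := {x | x ∈ N ∧ f x = 0}
      mul_mem' := fun {a b} ha hb => ⟨N.mul_mem ha.1 hb.1, by
        rw [hf _ ha.1 _ hb.1, ha.2, hb.2, add_zero]⟩
      one_mem' := ⟨N.one_mem, hf1⟩
      inv_mem' := fun {a} ha => ⟨N.inv_mem ha.1, by
        have h2 := hf a ha.1 a⁻¹ (N.inv_mem ha.1)
        rw [mul_inv_cancel, hf1, ha.2, zero_add] at h2
        exact h2.symm⟩ }
  show IsOpen (H : Set G)
  exact Subgroup.isOpen_of_mem_nhds H (g := 1) (Filter.mem_of_superset (hV.mem_nhds h1) hVN)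

theorem Sys.D_zero (hB : Base E G p π N U T h) (hS : Sys π N U T R D) {u : G} (hu : u ∈ N)
    (hR : R u = 1) : D u = 0 := by
  apply smul_cancel hB.hπ0
  have h1 := hS.eq u hu
  rw [hR, left_eq_add] at h1
  rw [h1, smul_zero]

theorem Sys.D_one (hB : Base E G p π N U T h) (hS : Sys π N U T R D) : D 1 = 0 :=
  hS.D_zero hB N.one_mem hS.one

theorem Sys.add (hB : Base E G p π N U T h) (hS : Sys π N U T R D) {x y : G} (hx : x ∈ N)
    (hy : y ∈ N) : red (D (x * y)) = red (D x) + red (D y) := by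
  rw [hS.law hB hx hy, red_add, red_add, red_smul, hB.res0, zero_smul, add_zero]

theorem Sys.equi' (hB : Base E G p π N U T h) (hS : Sys π N U T R D) (g : G) {x : G}
    (hx : x ∈ N) : red (D (g * x * g⁻¹)) = red (R g) * red (D x) * red (R g⁻¹) := by
  rw [hS.equi hB g hx, red_mul, red_mul]

variable {ι : Type} [Fintype ι] [DecidableEq ι]
  {P : ι → Matrix (Fin n) (Fin n) (ResidueField (OI E))}

/-- the class hypothesis for an additive function on `N` with values in a corner -/
theorem Sys.diag [IsTopologicalGroup G] (hB : Base E G p π N U T h) (hS : Sys π N U T R D)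
    (hP : Res N (fun g => red (R g)) P) (hL : Loc π ψ h T (fun g => red (R g)) P)
    (hC : Cls N U T ψ (fun g => red (R g)) P) :
    ∃ c : ι → ResidueField (OI E), ∀ x ∈ N, ∀ i,
      P i * red (D x) * P i = (ψ x * c i) • P i := by
  set f : G → Matrix (Fin n) (Fin n) (ResidueField (OI E)) :=
    fun x => ∑ i, P i * red (D x) * P i with hf
  have hadd : ∀ x ∈ N, ∀ y ∈ N, f (x * y) = f x + f y := by
    intro x hx y hy
    simp only [hf]
    rw [← Finset.sum_add_distrib]
    refine Finset.sum_congr rfl fun i _ => ?_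
    rw [hS.add hB hx hy, Matrix.mul_add, Matrix.add_mul]
  obtain ⟨c, hc⟩ := hC f hadd (fun g x hx => by
      simp only [hf]
      rw [Finset.mul_sum, Finset.sum_mul]
      refine Finset.sum_congr rfl fun i _ => ?_
      have h1 : P i * red (R g) = red (R g) * P i := hP.comm i g
      have h2 : P i * red (R g⁻¹) = red (R g⁻¹) * P i := hP.comm i g⁻¹
      rw [hS.equi' hB g hx, Matrix.mul_assoc _ _ (P i), Matrix.mul_assoc _ _ (P i), ← h2,
        ← Matrix.mul_assoc, ← Matrix.mul_assoc, ← Matrix.mul_assoc, h1]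
      simp only [Matrix.mul_assoc])
    (by
      refine open_sub hadd (hS.open_D hB) ⟨N.one_mem, by rw [hS.D_one hB, red_zero]⟩
        fun x hx => ⟨hx.1, ?_⟩
      simp only [hf]
      refine Finset.sum_eq_zero fun i _ => ?_
      rw [hx.2, Matrix.mul_zero, Matrix.zero_mul])
    (fun u hu => by
      simp only [hf]
      refine Finset.sum_eq_zero fun i _ => ?_
      rw [hS.D_zero hB (hB.UN u hu) (hS.ur u hu), red_zero, Matrix.mul_zero, Matrix.zero_mul])
    (fun τ σ q hT => by
      simp only [hf]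
      refine Finset.sum_eq_zero fun i _ => ?_
      rcases hS.loc hB hL hT one_ne_zero (one_smul _ _).symm with h1 | ⟨h1, -⟩
      · rw [h1, Matrix.mul_zero, Matrix.zero_mul]
      · exact h1 i)
  refine ⟨c, fun x hx i => ?_⟩
  have h1 := congrArg (fun X => P i * X * P i) (hc x hx)
  have h2 : P i * f x * P i = P i * red (D x) * P i := by
    simp only [hf]
    rw [Finset.mul_sum, Finset.sum_mul, Finset.sum_eq_single i]
    · rw [← Matrix.mul_assoc, ← Matrix.mul_assoc, hP.idem, Matrix.mul_assoc _ (P i), hP.idem]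
    · intro j _ hj
      rw [← Matrix.mul_assoc, ← Matrix.mul_assoc, hP.orth i j hj.symm, Matrix.zero_mul,
        Matrix.zero_mul, Matrix.zero_mul]
    · intro hi
      exact absurd (Finset.mem_univ i) hi
  have h3 : P i * (ψ x • ∑ j, c j • P j) * P i = (ψ x * c i) • P i := by
    rw [Matrix.mul_smul, Matrix.smul_mul, hP.P_sum, Matrix.smul_mul, hP.idem, smul_smul]
  exact h2.symm.trans (h1.trans h3)

/-- the off diagonal blocks at the tame inertia -/
theorem Sys.off (hB : Base E G p π N U T h) (hS : Sys π N U T R D)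
    (hP : Res N (fun g => red (R g)) P) (hL : Loc π ψ h T (fun g => red (R g)) P)
    {c : ι → ResidueField (OI E)} (hc : ∀ x ∈ N, ∀ i, P i * red (D x) * P i = (ψ x * c i) • P i)
    {i0 : ι} (hi0 : ∀ j, c j ≠ c i0 + 1) {τ σ : G} {q : ℕ} (hT : T τ σ q) (j : ι) :
    P j * red (D τ) * P i0 = 0 := by
  rcases hS.loc hB hL hT one_ne_zero (one_smul _ _).symm with h1 | ⟨-, h2, h3, h4⟩
  · rw [h1, Matrix.mul_zero, Matrix.zero_mul]
  · have h5 : ∀ i, P i * red (D (σ ^ h)) = (ψ (σ ^ h) * c i) • P i := by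
      intro i
      rw [← hc _ (hB.pow σ) i, Matrix.mul_assoc, ← h3, ← Matrix.mul_assoc, hP.idem]
    have h6 : red (D (σ ^ h)) * P i0 = (ψ (σ ^ h) * c i0) • P i0 := by rw [← h3, h5]
    have h7 := congrArg (fun X => P j * X * P i0) h4
    have h8 : P j * (red (D (σ ^ h)) * red (D τ) - red (D τ) * red (D (σ ^ h))) * P i0 =
        (ψ (σ ^ h) * c j - ψ (σ ^ h) * c i0) • (P j * red (D τ) * P i0) := by
      have a1 : P j * (red (D (σ ^ h)) * red (D τ)) * P i0 =
          (ψ (σ ^ h) * c j) • (P j * red (D τ) * P i0) := by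
        rw [← Matrix.mul_assoc, h5, Matrix.smul_mul, Matrix.smul_mul]
      have a2 : P j * (red (D τ) * red (D (σ ^ h))) * P i0 =
          (ψ (σ ^ h) * c i0) • (P j * red (D τ) * P i0) := by
        rw [← Matrix.mul_assoc, Matrix.mul_assoc _ _ (P i0), h6, Matrix.mul_smul]
      rw [Matrix.mul_sub, Matrix.sub_mul, a1, a2, ← sub_smul]
    have h9 : P j * (ψ (σ ^ h) • red (D τ)) * P i0 =
        ψ (σ ^ h) • (P j * red (D τ) * P i0) := by
      rw [Matrix.mul_smul, Matrix.smul_mul]
    have h10 := h8.symm.trans (h7.trans h9)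
    rw [← sub_eq_zero, ← sub_smul] at h10
    refine (smul_eq_zero.1 h10).resolve_left fun h11 => hi0 j ?_
    apply mul_left_cancel₀ h2
    linear_combination h11

/-- transport along an injective intertwiner -/
theorem Sys.of_inter {m : ℕ} (hS : Sys π N U T R D)
    {R' D' : G → Matrix (Fin m) (Fin m) (OI E)} (k : Matrix (Fin n) (Fin m) (OI E))
    (hinj : ∀ X : Matrix (Fin m) (Fin m) (OI E), k * X = 0 → X = 0)
    (hcomm : ∀ g, R g * k = k * R' g) (hD : ∀ x ∈ N, R' x = 1 + π • D' x)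
    (hcont : Cts R') : Sys π N U T R' D' := by
  have hc : ∀ X Y : Matrix (Fin m) (Fin m) (OI E), k * X = k * Y → X = Y := by
    intro X Y e
    rw [← sub_eq_zero]
    apply hinj
    rw [Matrix.mul_sub, e, sub_self]
  have h1 : ∀ u, R u = 1 → R' u = 1 := fun u hu => hc _ _ (by
    rw [← hcomm, hu, Matrix.one_mul, Matrix.mul_one])
  have h2 : ∀ (g : G) (q : ℕ), R g ^ q * k = k * R' g ^ q := by
    intro g q
    induction q with
    | zero => rw [pow_zero, pow_zero, Matrix.one_mul, Matrix.mul_one]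
    | succ q ih => rw [pow_succ, pow_succ, Matrix.mul_assoc, hcomm, ← Matrix.mul_assoc, ih,
        Matrix.mul_assoc]
  refine ⟨h1 1 hS.one, fun g g' => hc _ _ ?_, hcont, hD, fun u hu => h1 u (hS.ur u hu),
    fun τ σ q ht => hc _ _ ?_⟩
  · rw [← hcomm, hS.mul, Matrix.mul_assoc, hcomm, ← Matrix.mul_assoc, hcomm, Matrix.mul_assoc]
  · rw [← Matrix.mul_assoc, ← hcomm, Matrix.mul_assoc, ← hcomm, ← Matrix.mul_assoc,
      hS.rel τ σ q ht, Matrix.mul_assoc, hcomm, ← Matrix.mul_assoc, h2, Matrix.mul_assoc]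

/-- transport to a quotient -/
theorem Sys.of_quot {m : ℕ} (hS : Sys π N U T R D)
    {R' D' : G → Matrix (Fin m) (Fin m) (OI E)} (k : Matrix (Fin m) (Fin n) (OI E))
    (hinj : ∀ X : Matrix (Fin m) (Fin m) (OI E), X * k = 0 → X = 0)
    (hcomm : ∀ g, k * R g = R' g * k) (hD : ∀ x ∈ N, R' x = 1 + π • D' x)
    (hcont : Cts R') : Sys π N U T R' D' := by
  have hc : ∀ X Y : Matrix (Fin m) (Fin m) (OI E), X * k = Y * k → X = Y := by
    intro X Y e
    rw [← sub_eq_zero]
    apply hinj
    rw [Matrix.sub_mul, e, sub_self]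
  have h1 : ∀ u, R u = 1 → R' u = 1 := fun u hu => hc _ _ (by
    rw [← hcomm, hu, Matrix.one_mul, Matrix.mul_one])
  have h2 : ∀ (g : G) (q : ℕ), k * R g ^ q = R' g ^ q * k := by
    intro g q
    induction q with
    | zero => rw [pow_zero, pow_zero, Matrix.one_mul, Matrix.mul_one]
    | succ q ih => rw [pow_succ, pow_succ, ← Matrix.mul_assoc, ih, Matrix.mul_assoc, hcomm,
        Matrix.mul_assoc]
  refine ⟨h1 1 hS.one, fun g g' => hc _ _ ?_, hcont, hD, fun u hu => h1 u (hS.ur u hu),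
    fun τ σ q ht => hc _ _ ?_⟩
  · rw [← hcomm, hS.mul, ← Matrix.mul_assoc, hcomm, Matrix.mul_assoc, hcomm, Matrix.mul_assoc]
  · rw [Matrix.mul_assoc, ← hcomm, ← Matrix.mul_assoc, ← hcomm, Matrix.mul_assoc,
      hS.rel τ σ q ht, ← Matrix.mul_assoc, h2, Matrix.mul_assoc, hcomm, ← Matrix.mul_assoc]

end

/-- an idempotent lifting a projection of the residual algebra -/
theorem exists_idem {E : Type} [NormedField E] [IsUltrametricDist E] [IsAlgClosed E] {n : ℕ}
    (Y : Matrix (Fin n) (Fin n) (OI E)) (hY : red Y * red Y = red Y) :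
    ∃ e : Matrix (Fin n) (Fin n) (OI E), e * e = e ∧ e * Y = Y * e ∧ red e = red Y := by
  obtain ⟨e, he, heY, hw⟩ := spec (OI E) E n Y 1
  refine ⟨e, he, heY, ?_⟩
  set Q := red Y with hQ
  have h1 : ∀ k : ℕ, ∀ w : Fin n → ResidueField (OI E), Q *ᵥ w = w → 0 < k →
      (Q - (1 : ResidueField (OI E)) • 1) ^ k *ᵥ w = 0 := by
    intro k w hw hk
    obtain ⟨k, rfl⟩ := Nat.exists_eq_succ_of_ne_zero hk.ne'
    rw [pow_succ, ← Matrix.mulVec_mulVec, one_smul, Matrix.sub_mulVec, hw, Matrix.one_mulVec,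
      sub_self, Matrix.mulVec_zero]
  have h2 : ∀ k : ℕ, ∀ w : Fin n → ResidueField (OI E), 0 < k →
      (Q - (1 : ResidueField (OI E)) • 1) ^ k *ᵥ w = 0 → Q *ᵥ w = w := by
    intro k
    induction k with
    | zero => intro w h0; exact absurd h0 (lt_irrefl 0)
    | succ k ih =>
      intro w _ hk
      rcases Nat.eq_zero_or_pos k with h0 | h0
      · rw [h0, zero_add, pow_one, one_smul, Matrix.sub_mulVec, Matrix.one_mulVec, sub_eq_zero] at hk
        exact hk
      · rw [pow_succ, ← Matrix.mulVec_mulVec] at hk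
        have h3 := ih _ h0 hk
        rw [one_smul, Matrix.sub_mulVec, Matrix.one_mulVec, Matrix.mulVec_sub,
          Matrix.mulVec_mulVec, hY, sub_self] at h3
        exact (sub_eq_zero.1 h3.symm)
  have h3 : ∀ w : Fin n → ResidueField (OI E), red e *ᵥ w = w ↔ Q *ᵥ w = w := by
    intro w
    rcases Nat.eq_zero_or_pos n with h0 | h0
    · subst h0
      exact ⟨fun _ => Subsingleton.elim _ _, fun _ => Subsingleton.elim _ _⟩
    · rw [← hw w]
      exact ⟨h2 n w h0, fun h => h1 n w h h0⟩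
  have he' : red e * red e = red e := by rw [← red_mul, he]
  have h4 : Q * red e = red e := by
    apply Matrix.ext_of_mulVec_single
    intro j
    rw [← Matrix.mulVec_mulVec]
    exact (h3 _).1 (by rw [Matrix.mulVec_mulVec, he'])
  have h5 : red e * Q = Q := by
    apply Matrix.ext_of_mulVec_single
    intro j
    rw [← Matrix.mulVec_mulVec]
    exact (h3 _).2 (by rw [Matrix.mulVec_mulVec, hY])
  have h6 : red e * Q = Q * red e := by rw [hQ, ← red_mul, ← red_mul, heY]
  rw [← h4, ← h6, h5]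

end Pool.Agent.Q15.DC
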