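import Pool.Agent.Q15.DC.A3

/-! Representations whose reduction has distinct constituents: the stable idempotent (project DC). -/

set_option autoImplicit false
set_option linter.unusedSectionVars false

open Matrix IsLocalRing
open Pool.Agent.Q15.JT

namespace Pool.Agent.Q15.DC

theorem red_sum {O : Type} [CommRing O] [IsLocalRing O] {m n : Type} {α : Type}
    (s : Finset α) (F : α → Matrix m n O) : red (∑ a ∈ s, F a) = ∑ a ∈ s, red (F a) := by
  classical
  induction s using Finset.induction_on with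
  | empty => rw [Finset.sum_empty, Finset.sum_empty, red_zero]
  | insert a s ha ih => rw [Finset.sum_insert ha, Finset.sum_insert ha, red_add, ih]

section
variable {E : Type} [NormedField E] [IsUltrametricDist E] [IsAlgClosed E] {G : Type} [Group G]
  [TopologicalSpace G] [IsTopologicalGroup G] [CompactSpace G]
  {p : ℕ} {π : OI E} {N : Subgroup G} {U : Set G} {T : G → G → ℕ → Prop}
  {h : ℕ} {ψ : G → ResidueField (OI E)} {n : ℕ} {R D : G → Matrix (Fin n) (Fin n) (OI E)}
  {ι : Type} [Fintype ι] [DecidableEq ι]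
  {P : ι → Matrix (Fin n) (Fin n) (ResidueField (OI E))}

/-- an equivariant additive function with values in an off diagonal corner vanishes -/
theorem Cls.corner (hP : Res N (fun g => red (R g)) P)
    (hC : Cls N U T ψ (fun g => red (R g)) P) {i0 : ι}
    {f : G → Matrix (Fin n) (Fin n) (ResidueField (OI E))}
    (hadd : ∀ x ∈ N, ∀ y ∈ N, f (x * y) = f x + f y)
    (hequi : ∀ g, ∀ x ∈ N, f (g * x * g⁻¹) = red (R g) * f x * red (R g⁻¹))
    (hopen : IsOpen {x | x ∈ N ∧ f x = 0}) (hU : ∀ u ∈ U, f u = 0)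
    (hT : ∀ τ σ q, T τ σ q → f τ = 0) (hcor : ∀ x, (1 - P i0) * f x * P i0 = f x) {x : G}
    (hx : x ∈ N) : f x = 0 := by
  obtain ⟨c, hc⟩ := hC f hadd hequi hopen hU hT
  rw [← hcor, hc x hx, Matrix.mul_smul, Matrix.smul_mul, Matrix.mul_assoc, hP.sum_P,
    Matrix.mul_smul, Matrix.sub_mul, Matrix.one_mul, hP.idem, sub_self, smul_zero, smul_zero]

/-- **a constituent of the reduction lifts to a subrepresentation** -/
theorem Sys.cut (hB : Base E G p π N U T h) (hS : Sys π N U T R D)
    (hP : Res N (fun g => red (R g)) P) (hL : Loc π ψ h T (fun g => red (R g)) P)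
    (hC : Cls N U T ψ (fun g => red (R g)) P) (hι : Fintype.card ι < p) [Nonempty ι] :
    ∃ i0, ∃ e : Matrix (Fin n) (Fin n) (OI E), e * e = e ∧ red e = P i0 ∧
      ∀ g, (1 - e) * R g * e = 0 := by
  classical
  have hchar := hB.charP
  have hfin := hB.fin
  have hft : Fintype (G ⧸ N) := Fintype.ofFinite _
  obtain ⟨c, hc⟩ := hS.diag hB hP hL hC
  obtain ⟨i0, hi0⟩ := exists_top (p := p) hι c
  have hm : (Fintype.card (G ⧸ N) : ResidueField (OI E)) ≠ 0 := by
    rw [← Nat.card_eq_fintype_card]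
    exact hB.idx
  obtain ⟨t, ht⟩ := hP.mem_span hm i0
  choose s hs using fun q => residue_surjective (R := OI E) (t q)
  obtain ⟨Y, hY⟩ : ∃ Y, Y = ∑ q : G ⧸ N, s q • R q.out := ⟨_, rfl⟩
  have hYr : red Y = P i0 := by
    rw [hY, ht, red_sum]
    refine Finset.sum_congr rfl fun q _ => ?_
    rw [red_smul, hs]
  obtain ⟨e, he, heY, her⟩ := exists_idem Y (by rw [hYr, hP.idem])
  rw [hYr] at her
  refine ⟨i0, e, he, her, fun g => ?_⟩
  by_contra hne
  have hee' : e * (1 - e) = 0 := by rw [Matrix.mul_sub, Matrix.mul_one, he, sub_self]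
  have he'e : (1 - e) * e = 0 := by rw [Matrix.sub_mul, Matrix.one_mul, he, sub_self]
  have he'e' : (1 - e) * (1 - e) = 1 - e := by rw [Matrix.mul_sub, Matrix.mul_one, he'e, sub_zero]
  have hcont : Cts fun g => (1 - e) * R g * e :=
    (Cts.mul (Cts.const _) hS.cont).mul (Cts.const _)
  obtain ⟨d, b, hd, hb, ⟨g0, hg0⟩, hbc⟩ := sup E G n n (fun g => (1 - e) * R g * e)
    hcont ⟨g, hne⟩
  have hb' : ∀ g, (1 - e) * R g * e = d • b g := hb
  have hbe : ∀ g, b g * e = b g := by
    intro g
    apply smul_cancel hd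
    rw [← Matrix.smul_mul, ← hb', Matrix.mul_assoc, he]
  have hbe' : ∀ g, e * b g = 0 := by
    intro g
    apply smul_cancel hd
    rw [← Matrix.mul_smul, ← hb', ← Matrix.mul_assoc, ← Matrix.mul_assoc, hee', Matrix.zero_mul,
      Matrix.zero_mul, smul_zero]
  have hbe'' : ∀ g, (1 - e) * b g = b g := by
    intro g
    rw [Matrix.sub_mul, Matrix.one_mul, hbe', sub_zero]
  -- the cocycle
  have hcoc : ∀ g k, b (g * k) = b g * R k * e + (1 - e) * R g * b k := by
    intro g k
    apply smul_cancel hd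
    have h1 : R g * R k = R g * e * R k + R g * (1 - e) * R k := by
      rw [← Matrix.add_mul, ← Matrix.mul_add, add_sub_cancel, Matrix.mul_one]
    rw [← hb', smul_add, ← Matrix.smul_mul, ← Matrix.smul_mul, ← hb', ← Matrix.mul_smul, ← hb',
      hS.mul, h1, Matrix.mul_add, Matrix.add_mul]
    simp only [Matrix.mul_assoc]
  have hPr : ∀ g, P i0 * red (R g) = red (R g) * P i0 := fun g => hP.comm i0 g
  have hPP : P i0 * (1 - P i0) = 0 := by
    rw [Matrix.mul_sub, Matrix.mul_one, hP.idem, sub_self]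
  have hP'P : (1 - P i0) * P i0 = 0 := by
    rw [Matrix.sub_mul, Matrix.one_mul, hP.idem, sub_self]
  have hP'P' : (1 - P i0) * (1 - P i0) = 1 - P i0 := by
    rw [Matrix.mul_sub, Matrix.mul_one, hP'P, sub_zero]
  have hr1e : red (1 - e) = 1 - P i0 := by rw [red_sub, JT.red_one, her]
  have hβe : ∀ g, red (b g) * P i0 = red (b g) := by
    intro g
    rw [← her, ← red_mul, hbe]
  have hβe' : ∀ g, P i0 * red (b g) = 0 := by
    intro g
    rw [← her, ← red_mul, hbe', red_zero]
  have hβe'' : ∀ g, (1 - P i0) * red (b g) = red (b g) := by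
    intro g
    rw [← hr1e, ← red_mul, hbe'']
  have hβ : ∀ g k, red (b (g * k)) = red (b g) * red (R k) + red (R g) * red (b k) := by
    intro g k
    rw [hcoc, red_add, red_mul, red_mul, red_mul, red_mul, her, hr1e]
    congr 1
    · rw [Matrix.mul_assoc, ← hPr, ← Matrix.mul_assoc, hβe]
    · rw [Matrix.sub_mul, Matrix.one_mul, hPr, Matrix.sub_mul, Matrix.mul_assoc _ (P i0), hβe',
        Matrix.mul_zero, sub_zero]
  have hz : ∑ q : G ⧸ N, t q • red (b q.out) = 0 := by
    have h1 : ∑ q : G ⧸ N, s q • b q.out = 0 := by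
      apply smul_cancel hd
      rw [smul_zero, Finset.smul_sum]
      have h2 : ∀ q : G ⧸ N, d • s q • b q.out = (1 - e) * (s q • R q.out) * e := by
        intro q
        rw [smul_comm, ← hb', Matrix.mul_smul, Matrix.smul_mul]
      rw [Finset.sum_congr rfl fun q _ => h2 q, ← Finset.sum_mul, ← Finset.mul_sum, ← hY,
        Matrix.mul_assoc, ← heY, ← Matrix.mul_assoc, he'e, Matrix.zero_mul]
    have h2 := congrArg red h1
    rw [red_sum, red_zero] at h2
    rw [← h2]
    refine Finset.sum_congr rfl fun q _ => ?_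
    rw [red_smul, hs]
  have hx0 : ∃ x0 ∈ N, red (b x0) ≠ 0 := by
    by_contra hcon
    push Not at hcon
    exact hg0 (hP.coc hm i0 (β := fun g => red (b g)) hβ hcon
      (fun g => by
        show (1 - P i0) * red (b g) * P i0 = red (b g)
        rw [hβe'', hβe]) ht hz g0)
  obtain ⟨x0, hx0N, hx0⟩ := hx0
  -- `π` divides `d`
  obtain ⟨d', hd'⟩ : ∃ d', d = π * d' := by
    obtain ⟨i, j, hij⟩ : ∃ i j, residue (OI E) (b x0 i j) ≠ 0 := by
      by_contra hcon
      push Not at hcon
      apply hx0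
      ext i j
      exact hcon i j
    have hu : IsUnit (b x0 i j) := by
      by_contra h0
      exact hij ((residue_eq_zero_iff _).2 ((mem_maximalIdeal _).2 h0))
    obtain ⟨u, hu⟩ := hu
    have h1 : (1 - e) * R x0 * e = π • ((1 - e) * D x0 * e) := by
      rw [hS.eq x0 hx0N, Matrix.mul_add, Matrix.add_mul, Matrix.mul_one, he'e, zero_add,
        Matrix.mul_smul, Matrix.smul_mul]
    have h2 := congrFun (congrFun ((hb' x0).symm.trans h1) i) j
    rw [Matrix.smul_apply, Matrix.smul_apply, smul_eq_mul, smul_eq_mul, ← hu] at h2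
    refine ⟨((1 - e) * D x0 * e) i j * (u⁻¹ : (OI E)ˣ), ?_⟩
    rw [← mul_assoc, ← h2, mul_assoc, Units.mul_inv, mul_one]
  have hd'0 : d' ≠ 0 := by
    rintro rfl
    exact hd (by rw [hd', mul_zero])
  have hbD : ∀ x ∈ N, (1 - e) * D x * e = d' • b x := by
    intro x hx
    apply smul_cancel hB.hπ0
    rw [smul_smul, ← hd', ← hb', hS.eq x hx, Matrix.mul_add, Matrix.add_mul, Matrix.mul_one, he'e,
      zero_add, Matrix.mul_smul, Matrix.smul_mul]
  -- the new system
  obtain ⟨R', hR'⟩ : ∃ R' : G → Matrix (Fin n) (Fin n) (OI E), ∀ g, R' g =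
    e * R g * e + d' • (e * R g * (1 - e)) + π • b g + (1 - e) * R g * (1 - e) := ⟨_, fun g => rfl⟩
  obtain ⟨D', hD'⟩ : ∃ D' : G → Matrix (Fin n) (Fin n) (OI E), ∀ g, D' g =
    e * D g * e + d' • (e * D g * (1 - e)) + b g + (1 - e) * D g * (1 - e) := ⟨_, fun g => rfl⟩
  have a1 : ∀ X : Matrix (Fin n) (Fin n) (OI E), e * (e * X * e) = e * X * e := by
    intro X
    rw [← Matrix.mul_assoc, ← Matrix.mul_assoc, he]
  have a2 : ∀ X : Matrix (Fin n) (Fin n) (OI E), e * (e * X * (1 - e)) = e * X * (1 - e) := by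
    intro X
    rw [← Matrix.mul_assoc, ← Matrix.mul_assoc, he]
  have a3 : ∀ X : Matrix (Fin n) (Fin n) (OI E), e * ((1 - e) * X * (1 - e)) = 0 := by
    intro X
    rw [← Matrix.mul_assoc, ← Matrix.mul_assoc, hee', Matrix.zero_mul, Matrix.zero_mul]
  have b1 : ∀ X : Matrix (Fin n) (Fin n) (OI E), (1 - e) * (e * X * e) = 0 := by
    intro X
    rw [← Matrix.mul_assoc, ← Matrix.mul_assoc, he'e, Matrix.zero_mul, Matrix.zero_mul]
  have b2 : ∀ X : Matrix (Fin n) (Fin n) (OI E), (1 - e) * (e * X * (1 - e)) = 0 := by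
    intro X
    rw [← Matrix.mul_assoc, ← Matrix.mul_assoc, he'e, Matrix.zero_mul, Matrix.zero_mul]
  have b4 : ∀ X : Matrix (Fin n) (Fin n) (OI E),
      (1 - e) * ((1 - e) * X * (1 - e)) = (1 - e) * X * (1 - e) := by
    intro X
    rw [← Matrix.mul_assoc, ← Matrix.mul_assoc, he'e']
  have e2 : ∀ X : Matrix (Fin n) (Fin n) (OI E), X * e = e * X * e + (1 - e) * X * e := by
    intro X
    rw [← Matrix.add_mul, ← Matrix.add_mul, add_sub_cancel, Matrix.one_mul]
  have e3 : ∀ X : Matrix (Fin n) (Fin n) (OI E),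
      X * (1 - e) = e * X * (1 - e) + (1 - e) * X * (1 - e) := by
    intro X
    rw [← Matrix.add_mul, ← Matrix.add_mul, add_sub_cancel, Matrix.one_mul]
  obtain ⟨k, hk⟩ : ∃ k : Matrix (Fin n) (Fin n) (OI E), k = e + d' • (1 - e) := ⟨_, rfl⟩
  have hcomm : ∀ g, R g * k = k * R' g := by
    intro g
    have f1 : k * R' g = e * R g * e + d' • (e * R g * (1 - e)) + d • b g +
        d' • ((1 - e) * R g * (1 - e)) := by
      rw [hk, hR', hd', mul_comm π d', ← smul_smul]
      simp only [Matrix.add_mul, Matrix.mul_add, Matrix.smul_mul, Matrix.mul_smul, a1, a2, a3, b1,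
        b2, hbe'', b4, hbe', smul_zero, add_zero, zero_add, smul_add]
      rw [smul_comm d' π]
    rw [f1, ← hb', hk, Matrix.mul_add, Matrix.mul_smul]
    nth_rw 1 [e2]
    nth_rw 1 [e3]
    rw [smul_add]
    abel
  have hDN : ∀ x ∈ N, R' x = 1 + π • D' x := by
    intro x hx
    rw [hR', hD', hS.eq x hx]
    simp only [Matrix.mul_add, Matrix.add_mul, Matrix.mul_one, Matrix.mul_smul, Matrix.smul_mul,
      he, hee', he'e', smul_add, smul_zero, zero_add, smul_smul]
    rw [mul_comm d' π]
    abel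
  have hS' : Sys π N U T R' D' := by
    refine hS.of_inter k (fun X hX => ?_) hcomm hDN ?_
    · have h1 : (d' • e + (1 - e)) * k = d' • (1 : Matrix (Fin n) (Fin n) (OI E)) := by
        rw [hk, Matrix.add_mul, Matrix.mul_add, Matrix.mul_add, Matrix.smul_mul, Matrix.smul_mul,
          Matrix.mul_smul, Matrix.mul_smul, he, hee', he'e, he'e', smul_zero, smul_zero, add_zero,
          zero_add, ← smul_add, add_sub_cancel]
      apply smul_cancel hd'0
      rw [smul_zero, ← Matrix.one_mul X, ← Matrix.smul_mul, ← h1, Matrix.mul_assoc, hX,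
        Matrix.mul_zero]
    · have h1 : R' = fun g => e * R g * e + d' • (e * R g * (1 - e)) + π • b g +
          (1 - e) * R g * (1 - e) := funext hR'
      rw [h1]
      exact (((Cts.mul (Cts.mul (Cts.const _) hS.cont) (Cts.const _)).add
        (Cts.smul d' (Cts.mul (Cts.mul (Cts.const _) hS.cont) (Cts.const _)))).add
        (Cts.smul π hbc)).add (Cts.mul (Cts.mul (Cts.const _) hS.cont) (Cts.const _))
  have hrR : ∀ g, red (R' g) = red (R g) := by
    intro g
    rw [hR', red_add, red_add, red_add, red_smul, red_smul, hB.res0, zero_smul, add_zero, red_mul,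
      red_mul, red_mul, red_mul, red_mul, red_mul, hr1e, her, hPr, Matrix.mul_assoc, hP.idem,
      Matrix.mul_assoc (red (R g)) (P i0), hPP, Matrix.mul_zero, smul_zero, add_zero]
    have h1 : (1 - P i0) * red (R g) * (1 - P i0) = red (R g) * (1 - P i0) := by
      have h2 : (1 - P i0) * red (R g) = red (R g) * (1 - P i0) := by
        rw [Matrix.sub_mul, Matrix.one_mul, hPr, Matrix.mul_sub, Matrix.mul_one]
      rw [h2, Matrix.mul_assoc, hP'P']
    rw [h1, ← Matrix.mul_add, add_sub_cancel, Matrix.mul_one]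
  have hfun : (fun g => red (R' g)) = fun g => red (R g) := funext hrR
  have hrD : ∀ x, red (D' x) = P i0 * red (D x) * P i0 +
      residue (OI E) d' • (P i0 * red (D x) * (1 - P i0)) + red (b x) +
      (1 - P i0) * red (D x) * (1 - P i0) := by
    intro x
    rw [hD', red_add, red_add, red_add, red_smul, red_mul, red_mul, red_mul, red_mul, red_mul,
      red_mul, hr1e, her]
  have hc' : ∀ x ∈ N, ∀ i, P i * red (D' x) * P i = (ψ x * c i) • P i := by
    intro x hx i
    rw [← hc x hx i, hrD]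
    by_cases hi : i = i0
    · subst hi
      have g1 : P i * (P i * red (D x) * P i) * P i = P i * red (D x) * P i := by
        rw [← Matrix.mul_assoc, ← Matrix.mul_assoc, hP.idem, Matrix.mul_assoc _ (P i), hP.idem]
      have g2 : P i * (P i * red (D x) * (1 - P i)) * P i = 0 := by
        rw [Matrix.mul_assoc, Matrix.mul_assoc _ _ (P i), hP'P, Matrix.mul_zero, Matrix.mul_zero]
      have g3 : P i * ((1 - P i) * red (D x) * (1 - P i)) * P i = 0 := by
        rw [Matrix.mul_assoc, Matrix.mul_assoc _ _ (P i), hP'P, Matrix.mul_zero, Matrix.mul_zero]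
      rw [Matrix.mul_add, Matrix.mul_add, Matrix.mul_add, Matrix.add_mul, Matrix.add_mul,
        Matrix.add_mul, g1, Matrix.mul_smul, Matrix.smul_mul, g2, g3, hβe', Matrix.zero_mul,
        smul_zero, add_zero, add_zero, add_zero]
    · have o1 : P i * P i0 = 0 := hP.orth i i0 hi
      have o2 : P i0 * P i = 0 := hP.orth i0 i (Ne.symm hi)
      have o3 : P i * (1 - P i0) = P i := by rw [Matrix.mul_sub, Matrix.mul_one, o1, sub_zero]
      have o4 : (1 - P i0) * P i = P i := by rw [Matrix.sub_mul, Matrix.one_mul, o2, sub_zero]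
      have g1 : ∀ X, P i * (P i0 * red (D x) * X) * P i = 0 := by
        intro X
        rw [← Matrix.mul_assoc, ← Matrix.mul_assoc, o1, Matrix.zero_mul, Matrix.zero_mul,
          Matrix.zero_mul]
      have g3 : P i * ((1 - P i0) * red (D x) * (1 - P i0)) * P i = P i * red (D x) * P i := by
        rw [← Matrix.mul_assoc, ← Matrix.mul_assoc, o3, Matrix.mul_assoc _ _ (P i), o4]
      have g4 : P i * red (b x) * P i = 0 := by
        rw [← hβe, Matrix.mul_assoc, Matrix.mul_assoc, o2, Matrix.mul_zero, Matrix.mul_zero]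
      rw [Matrix.mul_add, Matrix.mul_add, Matrix.mul_add, Matrix.add_mul, Matrix.add_mul,
        Matrix.add_mul, g1, Matrix.mul_smul, Matrix.smul_mul, g1, g3, g4, smul_zero, add_zero,
        add_zero, zero_add]
  have hcor : ∀ x, (1 - P i0) * red (D' x) * P i0 = red (b x) := by
    intro x
    have g1 : ∀ X, (1 - P i0) * (P i0 * red (D x) * X) * P i0 = 0 := by
      intro X
      rw [← Matrix.mul_assoc, ← Matrix.mul_assoc, hP'P, Matrix.zero_mul, Matrix.zero_mul,
        Matrix.zero_mul]
    have g3 : (1 - P i0) * ((1 - P i0) * red (D x) * (1 - P i0)) * P i0 = 0 := by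
      rw [Matrix.mul_assoc, Matrix.mul_assoc _ _ (P i0), hP'P, Matrix.mul_zero, Matrix.mul_zero]
    rw [hrD, Matrix.mul_add, Matrix.mul_add, Matrix.mul_add, Matrix.add_mul, Matrix.add_mul,
      Matrix.add_mul, g1, Matrix.mul_smul, Matrix.smul_mul, g1, g3, hβe'', hβe, smul_zero,
      add_zero, add_zero, zero_add]
  have hadd : ∀ x ∈ N, ∀ y ∈ N, red (b (x * y)) = red (b x) + red (b y) := by
    intro x hx y hy
    rw [hβ, hS.red_one hB hx, hS.red_one hB hy, Matrix.mul_one, Matrix.one_mul]
  apply hx0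
  have hopen : IsOpen {x | x ∈ N ∧ red (b x) = 0} := by
    have h1 : {x | x ∈ N ∧ red (b x) = 0} = (N : Set G) ∩ {x | red (b x) = 0} := rfl
    rw [h1]
    exact hB.isOpen.inter (open_red hbc)
  refine Cls.corner hP hC (i0 := i0) (f := fun x => red (b x)) hadd (fun g x hx => ?_) hopen
    (fun u hu => ?_) (fun τ σ q hT => ?_) (fun x => ?_) hx0N
  · show red (b (g * x * g⁻¹)) = red (R g) * red (b x) * red (R g⁻¹)
    have k1 : P i0 * red (R g⁻¹) = red (R g⁻¹) * P i0 := hPr g⁻¹
    have k2 : (1 - P i0) * red (R g) = red (R g) * (1 - P i0) := by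
      rw [Matrix.sub_mul, Matrix.one_mul, hPr, Matrix.mul_sub, Matrix.mul_one]
    have k3 : ∀ X, (1 - P i0) * (red (R g) * X * red (R g⁻¹)) * P i0 =
        red (R g) * ((1 - P i0) * X * P i0) * red (R g⁻¹) := by
      intro X
      calc (1 - P i0) * (red (R g) * X * red (R g⁻¹)) * P i0
          = ((1 - P i0) * red (R g)) * X * (red (R g⁻¹) * P i0) := by
            simp only [Matrix.mul_assoc]
        _ = (red (R g) * (1 - P i0)) * X * (P i0 * red (R g⁻¹)) := by rw [k2, k1]
        _ = _ := by simp only [Matrix.mul_assoc]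
    rw [← hcor, ← hcor, hS'.equi' hB g hx, hrR, hrR, k3]
  · show red (b u) = 0
    rw [← hcor, hS'.D_zero hB (hB.UN u hu) (hS'.ur u hu), red_zero, Matrix.mul_zero,
      Matrix.zero_mul]
  · show red (b τ) = 0
    have h1 : ∀ j, P j * red (D' τ) * P i0 = 0 := fun j =>
      hS'.off hB (by rw [hfun]; exact hP) (by rw [hfun]; exact hL) hc' hi0 hT j
    have h2 : red (D' τ) * P i0 = 0 := by
      rw [← Matrix.one_mul (red (D' τ)), ← hP.sum, Finset.sum_mul, Finset.sum_mul]
      exact Finset.sum_eq_zero fun j _ => h1 j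
    rw [← hcor, Matrix.mul_assoc, h2, Matrix.mul_zero]
  · show (1 - P i0) * red (b x) * P i0 = red (b x)
    rw [hβe'', hβe]

end

end Pool.Agent.Q15.DC
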