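import Pool.Agent.Q15.DC.A4

/-! Representations whose reduction has distinct constituents: irreducible reduction (project DC). -/

set_option autoImplicit false
set_option linter.unusedSectionVars false

open Matrix IsLocalRing
open Pool.Agent.Q15.JT

namespace Pool.Agent.Q15.DC

section
variable {E : Type} [NormedField E] [IsUltrametricDist E] [IsAlgClosed E] {G : Type} [Group G]
  [TopologicalSpace G] [IsTopologicalGroup G] [CompactSpace G]
  {p : ℕ} {π : OI E} {N : Subgroup G} {U : Set G} {T : G → G → ℕ → Prop}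
  {h : ℕ} {ψ : G → ResidueField (OI E)} {n : ℕ} {R D : G → Matrix (Fin n) (Fin n) (OI E)}
  {ι : Type} [Fintype ι] [DecidableEq ι]
  {P : ι → Matrix (Fin n) (Fin n) (ResidueField (OI E))}

/-- if the reduction is irreducible then `N` acts by scalars -/
theorem Sys.scalar (hB : Base E G p π N U T h) (hS : Sys π N U T R D)
    (hP : Res N (fun g => red (R g)) P) (hL : Loc π ψ h T (fun g => red (R g)) P)
    (hC : Cls N U T ψ (fun g => red (R g)) P) {i : ι} (hi : ∀ j, j = i) :
    ∀ x ∈ N, ∃ c : OI E, R x = c • (1 : Matrix (Fin n) (Fin n) (OI E)) := by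
  classical
  have hchar := hB.charP
  have hfin := hB.fin
  have hft : Fintype (G ⧸ N) := Fintype.ofFinite _
  have hm : (Fintype.card (G ⧸ N) : ResidueField (OI E)) ≠ 0 := by
    rw [← Nat.card_eq_fintype_card]
    exact hB.idx
  have hsum : ∀ F : ι → Matrix (Fin n) (Fin n) (ResidueField (OI E)), ∑ j, F j = F i := by
    intro F
    exact Finset.sum_eq_single i (fun j _ hj => absurd (hi j) hj)
      fun h0 => absurd (Finset.mem_univ i) h0
  have hP1 : P i = 1 := by rw [← hsum P, hP.sum]
  -- the tame inertia acts trivially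
  have hD0 : ∀ τ σ q, T τ σ q → D τ = 0 := by
    intro τ σ q hT
    by_contra hne
    obtain ⟨c, F1, hc, hF, ⟨g, hg⟩, -⟩ := sup E Unit n n (fun _ => D τ)
      (fun _ _ => continuous_const) ⟨(), hne⟩
    apply hg
    rcases hS.loc hB hL hT hc (hF g) with h1 | ⟨h1, -⟩
    · exact h1
    · have h2 := h1 i
      rwa [hP1, Matrix.one_mul, Matrix.mul_one] at h2
  -- the dimension is invertible
  have hn : (n : ResidueField (OI E)) ≠ 0 := by
    have h1 := (hP.trace_ne hm i).1
    rwa [hP1, Matrix.trace_one, Fintype.card_fin] at h1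
  obtain ⟨ν, hν⟩ : ∃ ν : OI E, (n : OI E) * ν = 1 := by
    have h1 : IsUnit (n : OI E) := by
      by_contra h0
      apply hn
      have h2 := (residue_eq_zero_iff _).2 ((mem_maximalIdeal _).2 h0)
      rwa [map_natCast] at h2
    obtain ⟨u, hu⟩ := h1
    exact ⟨(u⁻¹ : (OI E)ˣ), by rw [← hu, Units.mul_inv]⟩
  obtain ⟨t, ht⟩ : ∃ t : G → OI E, ∀ x, t x = ν * (D x).trace := ⟨_, fun _ => rfl⟩
  obtain ⟨F, hF⟩ : ∃ F : G → Matrix (Fin n) (Fin n) (OI E),
    ∀ x, F x = D x - t x • (1 : Matrix (Fin n) (Fin n) (OI E)) := ⟨_, fun _ => rfl⟩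
  have hDF : ∀ x, D x = F x + t x • (1 : Matrix (Fin n) (Fin n) (OI E)) := by
    intro x
    rw [hF]
    abel
  have htr : ∀ x, (F x).trace = 0 := by
    intro x
    rw [hF, Matrix.trace_sub, Matrix.trace_smul, Matrix.trace_one, Fintype.card_fin, smul_eq_mul,
      ht]
    linear_combination (-(D x).trace) * hν
  suffices hFz : ∀ x ∈ N, F x = 0 by
    intro x hx
    refine ⟨1 + π * t x, ?_⟩
    rw [hS.eq x hx, hDF, hFz x hx, zero_add, smul_smul, add_smul, one_smul]
  intro x hx
  by_contra hne
  have hNc : CompactSpace N := isCompact_iff_compactSpace.1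
    (N.isClosed_of_isOpen hB.isOpen).isCompact
  have hπE : (π : E) ≠ 0 := fun h0 => hB.hπ0 (Subtype.ext h0)
  have hDc : Cts fun y : N => D y := by
    intro a b
    have h1 : (fun y : N => ((D y a b : OI E) : E)) =
        fun y : N => (((R (y : G) - 1) a b : OI E) : E) / (π : E) := by
      funext y
      rw [eq_div_iff hπE, hS.eq y y.2, add_sub_cancel_left]
      show _ = (π : E) * ((D y a b : OI E) : E)
      rw [mul_comm]
    rw [h1]
    exact (((hS.cont.sub (Cts.const 1)) a b).comp continuous_subtype_val).div_const _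
  have hFc : Cts fun y : N => F y := by
    have h1 : (fun y : N => F y) = fun y : N => D y - (t y) • (1 : Matrix (Fin n) (Fin n) (OI E)) :=
      funext fun y => hF y
    rw [h1]
    refine hDc.sub fun a b => ?_
    have h2 : (fun y : N => (((t y • (1 : Matrix (Fin n) (Fin n) (OI E))) a b : OI E) : E)) =
        fun y : N => ((ν : OI E) : E) * (∑ j, ((D y j j : OI E) : E)) *
          (((1 : Matrix (Fin n) (Fin n) (OI E)) a b : OI E) : E) := by
      funext y
      rw [Matrix.smul_apply, smul_eq_mul, ht, Matrix.trace]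
      push_cast
      rfl
    rw [h2]
    exact (continuous_const.mul (continuous_finsetSum _ fun j _ => hDc j j)).mul continuous_const
  obtain ⟨c, F1, hc, hcF, ⟨x1, hx1⟩, hF1⟩ := sup E N n n (fun y => F y) hFc ⟨⟨x, hx⟩, hne⟩
  have hcF' : ∀ y : N, F y = c • F1 y := hcF
  have htr1 : ∀ y : N, (F1 y).trace = 0 := by
    intro y
    apply mul_left_cancel₀ hc
    rw [mul_zero, ← smul_eq_mul, ← Matrix.trace_smul, ← hcF', htr]
  -- additivity
  have hadd : ∀ y z : N, red (F1 (y * z)) = red (F1 y) + red (F1 z) := by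
    intro y z
    have h1 : F1 (y * z) = F1 y + F1 z + π • (c • (F1 y * F1 z) + t z • F1 y + t y • F1 z -
        (ν * c * (F1 y * F1 z).trace) • (1 : Matrix (Fin n) (Fin n) (OI E))) := by
      apply smul_cancel hc
      have h2 : D ((y * z : N) : G) = D y + D z + π • (D y * D z) := hS.law hB y.2 z.2
      have h3 : D y * D z = F y * F z + t z • F y + t y • F z + (t y * t z) • 1 := by
        rw [hDF y, hDF z]
        simp only [Matrix.add_mul, Matrix.mul_add, Matrix.smul_mul, Matrix.mul_smul,
          Matrix.one_mul, Matrix.mul_one, smul_smul]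
        rw [smul_add, smul_smul, mul_comm (t z) (t y)]
        abel
      have h4 : (D y * D z).trace = (F y * F z).trace + t y * t z * n := by
        rw [h3, Matrix.trace_add, Matrix.trace_add, Matrix.trace_add, Matrix.trace_smul,
          Matrix.trace_smul, Matrix.trace_smul, htr, htr, Matrix.trace_one, Fintype.card_fin,
          smul_zero, smul_zero, smul_eq_mul, add_zero, add_zero]
      have h5 : t ((y * z : N) : G) = t y + t z + π * (ν * (F y * F z).trace + t y * t z) := by
        rw [ht, h2, Matrix.trace_add, Matrix.trace_add, Matrix.trace_smul, smul_eq_mul, h4, ht y,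
          ht z]
        linear_combination π * ν * (D y).trace * ν * (D z).trace * hν
      rw [← hcF', hF, h5, h2, h3, hDF y, hDF z, hcF' y, hcF' z, Matrix.smul_mul, Matrix.mul_smul,
        Matrix.trace_smul, Matrix.trace_smul]
      ext a b
      simp only [Matrix.add_apply, Matrix.sub_apply, Matrix.smul_apply, smul_eq_mul]
      ring
    rw [h1, red_add, red_add, red_smul, hB.res0, zero_smul, add_zero]
  have hequi : ∀ (g : G) (y : N) (hy : g * y * g⁻¹ ∈ N),
      red (F1 ⟨g * y * g⁻¹, hy⟩) = red (R g) * red (F1 y) * red (R g⁻¹) := by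
    intro g y hy
    have h1 : F1 ⟨g * y * g⁻¹, hy⟩ = R g * F1 y * R g⁻¹ := by
      apply smul_cancel hc
      rw [← hcF', ← Matrix.smul_mul, ← Matrix.mul_smul, ← hcF']
      show F (g * y * g⁻¹) = _
      have h2 : D (g * y * g⁻¹) = R g * D y * R g⁻¹ := hS.equi hB g y.2
      have h3 : t (g * y * g⁻¹) = t y := by
        rw [ht, ht, h2, Matrix.trace_mul_comm, ← Matrix.mul_assoc, hS.inv', Matrix.one_mul]
      rw [hF, hF, h2, h3, Matrix.mul_sub, Matrix.sub_mul, Matrix.mul_smul, Matrix.smul_mul,
        Matrix.mul_one, hS.inv]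
    rw [h1, red_mul, red_mul]
  obtain ⟨f, hf⟩ : ∃ f : G → Matrix (Fin n) (Fin n) (ResidueField (OI E)),
      ∀ (g : G) (hg : g ∈ N), f g = red (F1 ⟨g, hg⟩) :=
    ⟨fun g => if hg : g ∈ N then red (F1 ⟨g, hg⟩) else 0, fun g hg => dif_pos hg⟩
  have hz : ∀ (y : G) (hy : y ∈ N), D y = 0 → f y = 0 := by
    intro y hy hDy
    rw [hf y hy]
    have h1 : F y = 0 := by
      rw [hF, ht, hDy, Matrix.trace_zero, mul_zero, zero_smul, sub_zero]
    have h2 : F1 ⟨y, hy⟩ = 0 := by
      apply smul_cancel hc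
      rw [← hcF', smul_zero]
      exact h1
    rw [h2, red_zero]
  obtain ⟨c', hc'⟩ := hC f (fun y hy z hz => by
      rw [hf y hy, hf z hz, hf _ (N.mul_mem hy hz), ← hadd]
      rfl)
    (fun g y hy => by
      rw [hf y hy, hf _ (hB.normal g y hy)]
      exact hequi g ⟨y, hy⟩ _)
    (by
      have h1 : {x | x ∈ N ∧ f x = 0} = Subtype.val '' {y : N | red (F1 y) = 0} := by
        ext y
        constructor
        · rintro ⟨hy, hy0⟩
          exact ⟨⟨y, hy⟩, by rw [hf y hy] at hy0; exact hy0, rfl⟩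
        · rintro ⟨⟨y, hy⟩, hy0, rfl⟩
          exact ⟨hy, by rw [hf y hy]; exact hy0⟩
      rw [h1]
      exact hB.isOpen.isOpenMap_subtype_val _ (open_red hF1))
    (fun u hu => hz u (hB.UN u hu) (hS.D_zero hB (hB.UN u hu) (hS.ur u hu)))
    (fun τ σ q hT => hz τ (hB.TN τ σ q hT) (hD0 τ σ q hT))
  apply hx1
  have h1 := hc' x1 x1.2
  rw [hf x1 x1.2, hsum, hP1, smul_smul] at h1
  have h1' : red (F1 x1) = (ψ x1 * c' i) • 1 := h1
  have h2 : (red (F1 x1)).trace = 0 := by
    have h3 : (red (F1 x1)).trace = residue (OI E) (F1 x1).trace := by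
      simp only [Matrix.trace, map_sum, Matrix.diag_apply, Matrix.map_apply]
    rw [h3, htr1, map_zero]
  rw [h1', Matrix.trace_smul, Matrix.trace_one, Fintype.card_fin, smul_eq_mul] at h2
  rw [h1', (mul_eq_zero.1 h2).resolve_right hn, zero_smul]

end

end Pool.Agent.Q15.DC
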