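import Pool.Agent.Q15.DC.A5

/-! Representations whose reduction has distinct constituents: blocks (project DC). -/

set_option autoImplicit false
set_option linter.unusedSectionVars false

open Matrix IsLocalRing
open Pool.Agent.Q15.JT

namespace Pool.Agent.Q15.DC

section block
variable {κ : Type} [Field κ] {G : Type} [Group G] {n m : ℕ} {ι : Type} [Fintype ι]
  [DecidableEq ι] {N : Subgroup G} {r : G → Matrix (Fin n) (Fin n) κ}
  {P : ι → Matrix (Fin n) (Fin n) κ} {Q : ι → Prop} [DecidablePred Q]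

theorem Res.mul_PQ (h : Res N r P) (i : ι) (hi : Q i) : P i * ∑ j : {i // Q i}, P j = P i := by
  rw [Finset.mul_sum, Finset.sum_eq_single (⟨i, hi⟩ : {i // Q i})]
  · exact h.idem i
  · intro j _ hj
    exact h.orth i j fun h0 => hj (Subtype.ext h0.symm)
  · intro h0
    exact absurd (Finset.mem_univ _) h0

theorem Res.PQ_mul (h : Res N r P) (i : ι) (hi : Q i) : (∑ j : {i // Q i}, P j) * P i = P i := by
  rw [Finset.sum_mul, Finset.sum_eq_single (⟨i, hi⟩ : {i // Q i})]
  · exact h.idem i
  · intro j _ hj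
    exact h.orth j i fun h0 => hj (Subtype.ext h0)
  · intro h0
    exact absurd (Finset.mem_univ _) h0

theorem Res.PQ_mul' (h : Res N r P) (i : ι) (hi : ¬ Q i) : (∑ j : {i // Q i}, P j) * P i = 0 := by
  rw [Finset.sum_mul]
  refine Finset.sum_eq_zero fun j _ => h.orth j i ?_
  rintro rfl
  exact hi j.2

/-- a block of the residual representation -/
structure Blk (r : G → Matrix (Fin n) (Fin n) κ) (P : ι → Matrix (Fin n) (Fin n) κ)
    (Q : ι → Prop) [DecidablePred Q] (r' : G → Matrix (Fin m) (Fin m) κ)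
    (a : Matrix (Fin n) (Fin m) κ) (b : Matrix (Fin m) (Fin n) κ) : Prop where
  ba : b * a = 1
  ab : a * b = ∑ j : {i // Q i}, P j
  ra : ∀ g, r g * a = a * r' g
  br : ∀ g, b * r g = r' g * b

variable {r' : G → Matrix (Fin m) (Fin m) κ} {a : Matrix (Fin n) (Fin m) κ}
  {b : Matrix (Fin m) (Fin n) κ}

theorem Blk.mk' (h : Res N r P) (ba : b * a = 1) (ab : a * b = ∑ j : {i // Q i}, P j)
    (hr' : ∀ g, r' g = b * r g * a) : Blk r P Q r' a b := by
  have hc : ∀ g, (a * b) * r g = r g * (a * b) := by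
    intro g
    rw [ab, Finset.sum_mul, Finset.mul_sum]
    exact Finset.sum_congr rfl fun j _ => h.comm j g
  refine ⟨ba, ab, fun g => ?_, fun g => ?_⟩
  · calc r g * a = r g * (a * (b * a)) := by rw [ba, Matrix.mul_one]
      _ = r g * (a * b) * a := by simp only [Matrix.mul_assoc]
      _ = (a * b) * r g * a := by rw [hc]
      _ = a * (b * r g * a) := by simp only [Matrix.mul_assoc]
      _ = a * r' g := by rw [hr']
  · calc b * r g = (b * a) * b * r g := by rw [ba, Matrix.one_mul]
      _ = b * ((a * b) * r g) := by simp only [Matrix.mul_assoc]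
      _ = b * (r g * (a * b)) := by rw [hc]
      _ = (b * r g * a) * b := by simp only [Matrix.mul_assoc]
      _ = r' g * b := by rw [hr']

theorem Blk.hr (hB : Blk r P Q r' a b) (g : G) : r' g = b * r g * a := by
  rw [hB.br, Matrix.mul_assoc, hB.ba, Matrix.mul_one]

theorem Blk.back (hB : Blk r P Q r' a b) (X : Matrix (Fin m) (Fin m) κ) :
    b * (a * X * b) * a = X := by
  calc b * (a * X * b) * a = (b * a) * X * (b * a) := by simp only [Matrix.mul_assoc]
    _ = X := by rw [hB.ba, Matrix.one_mul, Matrix.mul_one]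

theorem Blk.inj (hB : Blk r P Q r' a b) {X Y : Matrix (Fin m) (Fin m) κ}
    (hX : a * X * b = a * Y * b) : X = Y := by
  rw [← hB.back X, hX, hB.back]

theorem Blk.inj0 (hB : Blk r P Q r' a b) {X : Matrix (Fin m) (Fin m) κ}
    (hX : a * X * b = 0) : X = 0 := hB.inj (by rw [hX, Matrix.mul_zero, Matrix.zero_mul])

theorem Blk.ltr (hB : Blk r P Q r' a b) (g : G) (X : Matrix (Fin m) (Fin m) κ) :
    r g * (a * X * b) = a * (r' g * X) * b := by
  rw [← Matrix.mul_assoc, ← Matrix.mul_assoc, hB.ra, Matrix.mul_assoc a]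

theorem Blk.rtr (hB : Blk r P Q r' a b) (g : G) (X : Matrix (Fin m) (Fin m) κ) :
    (a * X * b) * r g = a * (X * r' g) * b := by
  rw [Matrix.mul_assoc, hB.br]
  simp only [Matrix.mul_assoc]

theorem Blk.off (h : Res N r P) (hB : Blk r P Q r' a b) {i : ι} (hi : ¬ Q i) :
    b * P i * a = 0 := by
  calc b * P i * a = (b * a) * b * P i * a := by rw [hB.ba, Matrix.one_mul]
    _ = b * ((a * b) * P i) * a := by simp only [Matrix.mul_assoc]
    _ = 0 := by rw [hB.ab, h.PQ_mul' i hi, Matrix.mul_zero, Matrix.zero_mul]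

/-- sums over the block -/
theorem Blk.sum (h : Res N r P) (hB : Blk r P Q r' a b) (c : ι → κ) :
    b * (∑ i, c i • P i) * a = ∑ j : {i // Q i}, c j • (b * P j * a) := by
  rw [Matrix.mul_sum, Matrix.sum_mul, ← Fintype.sum_subtype_add_sum_subtype Q]
  rw [Finset.sum_eq_zero (s := (Finset.univ : Finset {i // ¬ Q i})), add_zero]
  · exact Finset.sum_congr rfl fun j _ => by rw [Matrix.mul_smul, Matrix.smul_mul]
  · intro j _
    rw [Matrix.mul_smul, Matrix.smul_mul, hB.off h j.2, smul_zero]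

theorem Blk.mid (h : Res N r P) (hB : Blk r P Q r' a b) (j : {i // Q i}) :
    a * (b * P j * a) * b = P j := by
  calc a * (b * P j * a) * b = (a * b) * P j * (a * b) := by simp only [Matrix.mul_assoc]
    _ = P j := by rw [hB.ab, h.PQ_mul _ j.2, h.mul_PQ _ j.2]

theorem Blk.aP (h : Res N r P) (hB : Blk r P Q r' a b) (j : {i // Q i}) :
    a * (b * P j * a) = P j * a := by
  calc a * (b * P j * a) = (a * b) * P j * a := by simp only [Matrix.mul_assoc]
    _ = P j * a := by rw [hB.ab, h.PQ_mul _ j.2]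

theorem Blk.Pb (h : Res N r P) (hB : Blk r P Q r' a b) (j : {i // Q i}) :
    (b * P j * a) * b = b * P j := by
  calc (b * P j * a) * b = b * (P j * (a * b)) := by simp only [Matrix.mul_assoc]
    _ = b * P j := by rw [hB.ab, h.mul_PQ _ j.2]

theorem Blk.mulP (h : Res N r P) (hB : Blk r P Q r' a b) (j : {i // Q i})
    (X : Matrix (Fin m) (Fin m) κ) : (b * P j * a) * X = b * (P j * (a * X * b)) * a := by
  calc (b * P j * a) * X = (b * P j * a) * (b * (a * X * b) * a) := by rw [hB.back]
    _ = ((b * P j * a) * b) * (a * X * b) * a := by simp only [Matrix.mul_assoc]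
    _ = _ := by rw [hB.Pb h]; simp only [Matrix.mul_assoc]

theorem Blk.Pmul (h : Res N r P) (hB : Blk r P Q r' a b) (j : {i // Q i})
    (X : Matrix (Fin m) (Fin m) κ) : X * (b * P j * a) = b * ((a * X * b) * P j) * a := by
  calc X * (b * P j * a) = (b * (a * X * b) * a) * (b * P j * a) := by rw [hB.back]
    _ = b * (a * X * b) * (a * (b * P j * a)) := by simp only [Matrix.mul_assoc]
    _ = _ := by rw [hB.aP h]; simp only [Matrix.mul_assoc]

/-- the block is multiplicity free -/
theorem Res.blk (h : Res N r P) (hB : Blk r P Q r' a b) :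
    Res N r' fun j : {i // Q i} => b * P j * a := by
  refine ⟨fun x hx => ?_, fun g k => ?_, fun j h0 => ?_, fun j => ?_, fun j k hjk => ?_, ?_,
    fun j g => ?_, fun X hX => ?_⟩
  · rw [hB.hr, h.one x hx, Matrix.mul_one, hB.ba]
  · rw [hB.hr, h.mul, ← Matrix.mul_assoc, hB.br, Matrix.mul_assoc, Matrix.mul_assoc, ←
      Matrix.mul_assoc b, ← hB.hr]
  · apply h.ne j
    rw [← hB.mid h j, h0, Matrix.mul_zero, Matrix.zero_mul]
  · show (b * P j * a) * (b * P j * a) = b * P j * a
    rw [hB.mulP h, hB.mid h, h.idem]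
  · show (b * P j * a) * (b * P k * a) = 0
    rw [hB.mulP h, hB.mid h, h.orth _ _ fun h0 => hjk (Subtype.ext h0), Matrix.mul_zero,
      Matrix.zero_mul]
  · show ∑ j : {i // Q i}, b * P j * a = 1
    have h1 := hB.sum h (fun _ => (1 : κ))
    simp only [one_smul] at h1
    rw [← h1, h.sum, Matrix.mul_one, hB.ba]
  · show (b * P j * a) * r' g = r' g * (b * P j * a)
    calc (b * P j * a) * r' g = b * P j * (a * r' g) := by simp only [Matrix.mul_assoc]
      _ = b * (P j * r g) * a := by rw [← hB.ra]; simp only [Matrix.mul_assoc]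
      _ = (b * r g) * P j * a := by rw [h.comm]; simp only [Matrix.mul_assoc]
      _ = _ := by rw [hB.br]; simp only [Matrix.mul_assoc]
  · obtain ⟨c, hc⟩ := h.cent (a * X * b) fun g => by rw [hB.rtr, hB.ltr, hX]
    refine ⟨fun j => c j, ?_⟩
    rw [← hB.back X, hc, hB.sum h]

end block

section
variable {E : Type} [NormedField E] [IsUltrametricDist E] {G : Type} [Group G]
  [TopologicalSpace G] {π : OI E} {N : Subgroup G} {U : Set G} {T : G → G → ℕ → Prop}
  {h : ℕ} {ψ : G → ResidueField (OI E)} {n m : ℕ} {ι : Type} [Fintype ι] [DecidableEq ι]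
  {r : G → Matrix (Fin n) (Fin n) (ResidueField (OI E))}
  {P : ι → Matrix (Fin n) (Fin n) (ResidueField (OI E))} {Q : ι → Prop} [DecidablePred Q]
  {r' : G → Matrix (Fin m) (Fin m) (ResidueField (OI E))}
  {a : Matrix (Fin n) (Fin m) (ResidueField (OI E))}
  {b : Matrix (Fin m) (Fin n) (ResidueField (OI E))}

theorem Loc.blk (hL : Loc π ψ h T r P) (hR : Res N r P) (hB : Blk r P Q r' a b) :
    Loc π ψ h T r' fun j : {i // Q i} => b * P j * a := by
  have hcc : ∀ σ X, r' σ * X = X * r' σ → r σ * (a * X * b) = (a * X * b) * r σ := by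
    intro σ X hX
    rw [hB.rtr, hB.ltr, hX]
  have hqq : ∀ (σ : G) (q : ℕ) (X : Matrix (Fin m) (Fin m) (ResidueField (OI E))),
      r' σ * X = (q : ResidueField (OI E)) • (X * r' σ) →
      r σ * (a * X * b) = (q : ResidueField (OI E)) • ((a * X * b) * r σ) := by
    intro σ q X hX
    rw [hB.rtr, hB.ltr, hX, Matrix.mul_smul, Matrix.smul_mul]
  intro τ σ q hT
  rcases hL τ σ q hT with h1 | ⟨h1, ⟨h2, h3⟩ | ⟨h2, h3⟩⟩
  · exact Or.inl fun X hX => hB.inj0 (h1 _ (hqq σ q X hX))
  · refine Or.inr ⟨h1, Or.inl ⟨fun X hX j => ?_, fun X hX j => ?_⟩⟩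
    · rw [hB.mulP hR, hB.Pmul hR, h2 _ (hcc σ X hX) j]
    · rw [hB.mulP hR, hB.Pmul hR]
      have h4 : a * (b * (P j * (a * X * b)) * a) * b = (a * b) * P j * (a * X * b) * (a * b) := by
        simp only [Matrix.mul_assoc]
      have h5 : (a * X * b) * (a * b) = a * X * b := by
        calc (a * X * b) * (a * b) = a * X * (b * a) * b := by simp only [Matrix.mul_assoc]
          _ = _ := by rw [hB.ba, Matrix.mul_one]
      rw [h4, Matrix.mul_assoc _ (a * X * b), h5, hB.ab, hR.PQ_mul _ j.2, h3 _ (hqq σ q X hX) j,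
        Matrix.mul_zero, Matrix.zero_mul]
  · refine Or.inr ⟨h1, Or.inr ⟨h2, fun X Y hX hY => ?_⟩⟩
    have h4 := h3 _ _ (hcc σ X hX) (hcc σ Y hY)
    have h5 : ∀ X Y : Matrix (Fin m) (Fin m) (ResidueField (OI E)),
        (a * X * b) * (a * Y * b) = a * (X * Y) * b := by
      intro X Y
      calc (a * X * b) * (a * Y * b) = a * X * (b * a) * Y * b := by simp only [Matrix.mul_assoc]
        _ = _ := by rw [hB.ba, Matrix.mul_one]; simp only [Matrix.mul_assoc]
    rw [h5, h5] at h4
    exact hB.inj h4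

theorem Cls.blk (hC : Cls N U T ψ r P) (hR : Res N r P) (hB : Blk r P Q r' a b) :
    Cls N U T ψ r' fun j : {i // Q i} => b * P j * a := by
  intro f hadd hequi hopen hU hT
  obtain ⟨c, hc⟩ := hC (fun x => a * f x * b) (fun x hx y hy => by
      show a * f (x * y) * b = _
      rw [hadd x hx y hy, Matrix.mul_add, Matrix.add_mul])
    (fun g x hx => by
      show a * f (g * x * g⁻¹) * b = r g * (a * f x * b) * r g⁻¹
      rw [hequi g x hx, hB.ltr, hB.rtr])
    (by
      have h1 : {x | x ∈ N ∧ a * f x * b = 0} = {x | x ∈ N ∧ f x = 0} := by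
        ext x
        refine and_congr_right fun _ => ⟨hB.inj0, fun h0 => ?_⟩
        rw [h0, Matrix.mul_zero, Matrix.zero_mul]
      rw [h1]
      exact hopen)
    (fun u hu => by
      show a * f u * b = 0
      rw [hU u hu, Matrix.mul_zero, Matrix.zero_mul])
    (fun τ σ q h0 => by
      show a * f τ * b = 0
      rw [hT τ σ q h0, Matrix.mul_zero, Matrix.zero_mul])
  refine ⟨fun j => c j, fun x hx => ?_⟩
  have h1 : a * f x * b = ψ x • ∑ i, c i • P i := hc x hx
  rw [← hB.back (f x), h1, Matrix.mul_smul, Matrix.smul_mul, hB.sum hR]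

end

end Pool.Agent.Q15.DC
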