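import Pool.Agent.Q15.DC.A6

/-! Representations whose reduction has distinct constituents: the filtration (project DC). -/

set_option autoImplicit false
set_option linter.unusedSectionVars false

open Matrix IsLocalRing
open Pool.Agent.Q15.JT

namespace Pool.Agent.Q15.DC

theorem split' {O : Type} [CommRing O] [IsLocalRing O] {n : ℕ} (e : Matrix (Fin n) (Fin n) O)
    (he : e * e = e) : ∃ (m : ℕ) (a : Matrix (Fin n) (Fin m) O) (b : Matrix (Fin m) (Fin n) O),
      b * a = 1 ∧ a * b = e := by
  by_cases h0 : e = 0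
  · refine ⟨0, 0, 0, ?_, ?_⟩
    · ext i
      exact i.elim0
    · rw [h0]
      ext i j
      simp
  · by_cases h1 : e = 1
    · exact ⟨n, 1, 1, Matrix.one_mul 1, by rw [Matrix.one_mul, h1]⟩
    · obtain ⟨m, a, b, -, -, h2, h3⟩ := split O n e he h0 h1
      exact ⟨m, a, b, h2, h3⟩

/-- the filtration -/
def Filt {E : Type} [NormedField E] [IsUltrametricDist E] {G : Type} [Group G] (N : Subgroup G)
    {n : ℕ} (R : G → Matrix (Fin n) (Fin n) (OI E)) (k : ℕ)
    (W : ℕ → Submodule E (Fin n → E)) : Prop :=
  W 0 = ⊥ ∧ W k = ⊤ ∧ (∀ j < k, W j < W (j + 1)) ∧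
  (∀ j g, ∀ w ∈ W j, (R g).map (algebraMap (OI E) E) *ᵥ w ∈ W j) ∧
  ∀ j < k, ∀ x ∈ N, ∃ c : E, ∀ w ∈ W (j + 1),
    (R x).map (algebraMap (OI E) E) *ᵥ w - c • w ∈ W j

section
variable {E : Type} [NormedField E] [IsUltrametricDist E] [IsAlgClosed E] {G : Type} [Group G]
  [TopologicalSpace G] [IsTopologicalGroup G] [CompactSpace G]
  {p : ℕ} {π : OI E} {N : Subgroup G} {U : Set G} {T : G → G → ℕ → Prop}
  {h : ℕ} {ψ : G → ResidueField (OI E)}

theorem filt (hB : Base E G p π N U T h) (k : ℕ) : ∀ (n : ℕ)
    (R D : G → Matrix (Fin n) (Fin n) (OI E)) (ι : Type) [Fintype ι] [DecidableEq ι]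
    (P : ι → Matrix (Fin n) (Fin n) (ResidueField (OI E))), Fintype.card ι = k → k < p →
    Sys π N U T R D → Res N (fun g => red (R g)) P → Loc π ψ h T (fun g => red (R g)) P →
    Cls N U T ψ (fun g => red (R g)) P → ∃ W : ℕ → Submodule E (Fin n → E), Filt N R k W := by
  classical
  induction k with
  | zero =>
    intro n R D ι _ _ P hk _ hS hP hL hC
    have hι : IsEmpty ι := Fintype.card_eq_zero_iff.1 hk
    have h0 : n = 0 := by
      by_contra hn
      have h1 := hP.sum
      rw [Finset.univ_eq_empty, Finset.sum_empty] at h1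
      have h2 := congrFun (congrFun h1 ⟨0, Nat.pos_of_ne_zero hn⟩) ⟨0, Nat.pos_of_ne_zero hn⟩
      rw [Matrix.zero_apply, Matrix.one_apply_eq] at h2
      exact zero_ne_one h2
    subst h0
    refine ⟨fun _ => ⊥, rfl, Subsingleton.elim _ _, fun j hj => absurd hj (Nat.not_lt_zero j),
      fun j g w hw => ?_, fun j hj => absurd hj (Nat.not_lt_zero j)⟩
    rw [(Submodule.mem_bot E).1 hw, Matrix.mulVec_zero]
    exact Submodule.zero_mem _
  | succ k ih =>
    intro n R D ι _ _ P hk hkp hS hP hL hC
    have hne : Nonempty ι := Fintype.card_pos_iff.1 (by omega)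
    obtain ⟨i0, e, he, her, hcut⟩ := hS.cut hB hP hL hC (by omega)
    have he' : (1 - e) * (1 - e) = 1 - e := by
      rw [Matrix.mul_sub, Matrix.mul_one, Matrix.sub_mul, Matrix.one_mul, he, sub_self, sub_zero]
    have he'e : (1 - e) * e = 0 := by rw [Matrix.sub_mul, Matrix.one_mul, he, sub_self]
    obtain ⟨m1, a1, b1, hba1, hab1⟩ := split' e he
    obtain ⟨m2, a2, b2, hba2, hab2⟩ := split' (1 - e) he'
    have hRe : ∀ g, R g * e = e * R g * e := by
      intro g
      have h1 := hcut g
      rw [Matrix.sub_mul, Matrix.one_mul, Matrix.sub_mul, sub_eq_zero] at h1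
      exact h1
    -- the subrepresentation
    have hea1 : e * a1 = a1 := by rw [← hab1, Matrix.mul_assoc, hba1, Matrix.mul_one]
    have hb1e : b1 * e = b1 := by rw [← hab1, ← Matrix.mul_assoc, hba1, Matrix.one_mul]
    have hc1 : ∀ g, R g * a1 = a1 * (b1 * R g * a1) := by
      intro g
      calc R g * a1 = R g * e * a1 := by rw [Matrix.mul_assoc, hea1]
        _ = e * R g * e * a1 := by rw [hRe]
        _ = e * (R g * (e * a1)) := by simp only [Matrix.mul_assoc]
        _ = (a1 * b1) * (R g * a1) := by rw [hea1, hab1]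
        _ = _ := by simp only [Matrix.mul_assoc]
    have hS1 : Sys π N U T (fun g => b1 * R g * a1) fun g => b1 * D g * a1 := by
      refine hS.of_inter a1 (fun X hX => ?_) hc1 (fun x hx => ?_) ?_
      · rw [← Matrix.one_mul X, ← hba1, Matrix.mul_assoc, hX, Matrix.mul_zero]
      · show b1 * R x * a1 = 1 + π • (b1 * D x * a1)
        rw [hS.eq x hx, Matrix.mul_add, Matrix.mul_one, Matrix.add_mul, hba1, Matrix.mul_smul,
          Matrix.smul_mul]
      · exact (Cts.mul (Cts.const _) hS.cont).mul (Cts.const _)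
    have hB1 : Blk (fun g => red (R g)) P (fun i => ¬ i ≠ i0)
        (fun g => red (b1 * R g * a1)) (red a1) (red b1) := by
      refine Blk.mk' hP ?_ ?_ fun g => ?_
      · rw [← red_mul, hba1, JT.red_one]
      · rw [← red_mul, hab1, her]
        have h1 : (Finset.univ : Finset {i // ¬ i ≠ i0}) = {⟨i0, fun h => h rfl⟩} := by
          ext j
          simp only [Finset.mem_univ, Finset.mem_singleton, true_iff]
          exact Subtype.ext (not_not.1 j.2)
        rw [h1, Finset.sum_singleton]
      · rw [red_mul, red_mul]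
    have hscal := hS1.scalar hB (hP.blk hB1) (hL.blk hP hB1) (hC.blk hP hB1)
      (i := (⟨i0, fun h => h rfl⟩ : {i // ¬ i ≠ i0})) fun j => Subtype.ext (not_not.1 j.2)
    -- the quotient
    have hea2 : (1 - e) * a2 = a2 := by rw [← hab2, Matrix.mul_assoc, hba2, Matrix.mul_one]
    have hb2e : b2 * (1 - e) = b2 := by rw [← hab2, ← Matrix.mul_assoc, hba2, Matrix.one_mul]
    have hc2 : ∀ g, b2 * R g = (b2 * R g * a2) * b2 := by
      intro g
      have h1 : (1 - e) * R g = (1 - e) * R g * (1 - e) := by
        rw [Matrix.mul_sub, Matrix.mul_one, hcut, sub_zero]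
      calc b2 * R g = b2 * ((1 - e) * R g) := by rw [← Matrix.mul_assoc, hb2e]
        _ = b2 * ((1 - e) * R g * (1 - e)) := by rw [← h1]
        _ = (b2 * (1 - e)) * R g * (1 - e) := by simp only [Matrix.mul_assoc]
        _ = b2 * R g * (a2 * b2) := by rw [hb2e, hab2]
        _ = _ := by simp only [Matrix.mul_assoc]
    have hS2 : Sys π N U T (fun g => b2 * R g * a2) fun g => b2 * D g * a2 := by
      refine hS.of_quot b2 (fun X hX => ?_) hc2 (fun x hx => ?_) ?_
      · rw [← Matrix.mul_one X, ← hba2, ← Matrix.mul_assoc, hX, Matrix.zero_mul]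
      · show b2 * R x * a2 = 1 + π • (b2 * D x * a2)
        rw [hS.eq x hx, Matrix.mul_add, Matrix.mul_one, Matrix.add_mul, hba2, Matrix.mul_smul,
          Matrix.smul_mul]
      · exact (Cts.mul (Cts.const _) hS.cont).mul (Cts.const _)
    have hB2 : Blk (fun g => red (R g)) P (fun i => i ≠ i0)
        (fun g => red (b2 * R g * a2)) (red a2) (red b2) := by
      refine Blk.mk' hP ?_ ?_ fun g => ?_
      · rw [← red_mul, hba2, JT.red_one]
      · rw [← red_mul, hab2, red_sub, JT.red_one, her, sub_eq_iff_eq_add, ← hP.sum,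
          ← Fintype.sum_subtype_add_sum_subtype (fun i => i ≠ i0)]
        congr 1
        have h1 : (Finset.univ : Finset {i // ¬ i ≠ i0}) = {⟨i0, fun h => h rfl⟩} := by
          ext j
          simp only [Finset.mem_univ, Finset.mem_singleton, true_iff]
          exact Subtype.ext (not_not.1 j.2)
        rw [h1, Finset.sum_singleton]
      · rw [red_mul, red_mul]
    have hcard : Fintype.card {i // i ≠ i0} = k := by
      rw [Fintype.card_subtype_compl, Fintype.card_subtype_eq, hk]
      rfl
    obtain ⟨W', hW0, hWk, hWlt, hWst, hWsc⟩ := ih m2 _ _ {i // i ≠ i0} _ hcard (by omega) hS2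
      (hP.blk hB2) (hL.blk hP hB2) (hC.blk hP hB2)
    -- the filtration
    obtain ⟨β, hβ⟩ : ∃ β : (Fin n → E) →ₗ[E] (Fin m2 → E),
        ∀ w, β w = b2.map (algebraMap (OI E) E) *ᵥ w :=
      ⟨Matrix.toLin' (b2.map (algebraMap (OI E) E)), fun w => Matrix.toLin'_apply _ _⟩
    have hsurj : Function.Surjective β := by
      intro v
      refine ⟨a2.map (algebraMap (OI E) E) *ᵥ v, ?_⟩
      rw [hβ, Matrix.mulVec_mulVec, ← Matrix.map_mul, hba2, Matrix.map_one _ (map_zero _)
        (map_one _), Matrix.one_mulVec]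
    have hβR : ∀ g w, β ((R g).map (algebraMap (OI E) E) *ᵥ w) =
        (b2 * R g * a2).map (algebraMap (OI E) E) *ᵥ (β w) := by
      intro g w
      rw [hβ, hβ, Matrix.mulVec_mulVec, Matrix.mulVec_mulVec, ← Matrix.map_mul, ← Matrix.map_mul,
        ← hc2]
    have hker : ∀ w, β w = 0 → w = a1.map (algebraMap (OI E) E) *ᵥ
        (b1.map (algebraMap (OI E) E) *ᵥ w) := by
      intro w hw
      have h1 : (1 - e).map (algebraMap (OI E) E) *ᵥ w = 0 := by
        rw [← hab2, Matrix.map_mul, ← Matrix.mulVec_mulVec, ← hβ, hw, Matrix.mulVec_zero]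
      rw [Matrix.mulVec_mulVec, ← Matrix.map_mul, hab1]
      have h2 : (1 - e).map (algebraMap (OI E) E) = 1 - e.map (algebraMap (OI E) E) := by
        ext i j
        simp only [Matrix.map_apply, Matrix.sub_apply, map_sub, Matrix.one_apply]
        split_ifs <;> simp
      rw [h2, Matrix.sub_mulVec, Matrix.one_mulVec, sub_eq_zero] at h1
      exact h1
    refine ⟨fun j => Nat.casesOn j ⊥ fun j => (W' j).comap β, rfl, ?_, fun j hj => ?_,
      fun j g w hw => ?_, fun j hj x hx => ?_⟩
    · show (W' k).comap β = ⊤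
      rw [hWk, Submodule.comap_top]
    · cases j with
      | zero =>
        show (⊥ : Submodule E (Fin n → E)) < (W' 0).comap β
        rw [bot_lt_iff_ne_bot, hW0]
        intro h0
        -- a vector in the image of `a1`
        have hm1 : m1 ≠ 0 := by
          rintro rfl
          apply hP.ne i0
          rw [← her, ← hab1]
          ext i j
          show residue (OI E) ((a1 * b1) i j) = 0
          rw [Matrix.mul_apply, Finset.univ_eq_empty, Finset.sum_empty, map_zero]
        have h1 : a1.map (algebraMap (OI E) E) *ᵥ (Pi.single ⟨0, Nat.pos_of_ne_zero hm1⟩ 1) ∈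
            Submodule.comap β ⊥ := by
          rw [Submodule.mem_comap, Submodule.mem_bot, hβ, Matrix.mulVec_mulVec, ← Matrix.map_mul]
          have h2 : b2 * a1 = 0 := by
            rw [← hb2e, Matrix.mul_assoc, ← hea1, ← Matrix.mul_assoc (1 - e), he'e,
              Matrix.zero_mul, Matrix.mul_zero]
          rw [h2, Matrix.map_zero _ (map_zero _), Matrix.zero_mulVec]
        rw [h0, Submodule.mem_bot] at h1
        have h3 := congrArg (fun v => b1.map (algebraMap (OI E) E) *ᵥ v) h1
        simp only [Matrix.mulVec_mulVec, Matrix.mulVec_zero] at h3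
        rw [← Matrix.map_mul, hba1, Matrix.map_one _ (map_zero _) (map_one _),
          Matrix.one_mulVec] at h3
        have h4 := congrFun h3 ⟨0, Nat.pos_of_ne_zero hm1⟩
        rw [Pi.single_eq_same] at h4
        exact one_ne_zero h4
      | succ j =>
        show (W' j).comap β < (W' (j + 1)).comap β
        exact Submodule.comap_strictMono_of_surjective hsurj (hWlt j (by omega))
    · cases j with
      | zero =>
        have h0 : w = 0 := (Submodule.mem_bot E).1 hw
        rw [h0, Matrix.mulVec_zero]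
        exact Submodule.zero_mem _
      | succ j =>
        show β _ ∈ W' j
        rw [hβR]
        exact hWst j g _ hw
    · cases j with
      | zero =>
        obtain ⟨c, hc⟩ := hscal x hx
        refine ⟨algebraMap (OI E) E c, fun w hw => ?_⟩
        have hw0 : β w = 0 := by
          have h1 : β w ∈ W' 0 := hw
          rw [hW0] at h1
          exact (Submodule.mem_bot E).1 h1
        show _ ∈ (⊥ : Submodule E (Fin n → E))
        rw [Submodule.mem_bot, sub_eq_zero]
        have hc' : b1 * R x * a1 = c • 1 := hc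
        rw [hker w hw0, Matrix.mulVec_mulVec, ← Matrix.map_mul, hc1, hc', Matrix.mul_smul,
          Matrix.mul_one]
        have h2 : (c • a1).map (algebraMap (OI E) E) =
            algebraMap (OI E) E c • a1.map (algebraMap (OI E) E) := by
          ext i j
          simp [Matrix.map_apply, Matrix.smul_apply]
        rw [h2, Matrix.smul_mulVec]
      | succ j =>
        obtain ⟨c, hc⟩ := hWsc j (by omega) x hx
        refine ⟨c, fun w hw => ?_⟩
        show β _ ∈ W' j
        rw [map_sub, map_smul, hβR]
        exact hc _ hw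

end

end Pool.Agent.Q15.DC
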