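import Pool.Agent.Q15.DC.A7
import Pool.Agent.Q15.JT.NF5

/-! Representations whose reduction has distinct constituents: number fields (project DC). -/

set_option autoImplicit false
set_option linter.unusedSectionVars false

open NumberField Matrix IsLocalRing Pool.Agent.W569.FM Pool.Agent.W571.FM Pool.Agent.W569.UF
  Pool.Agent.Q15.FMNT Pool.Agent.Q15.FMMain Pool.Agent.Q15.FMScal Pool.Agent.Q15.FM2C
  Pool.Agent.Q15.JT

namespace Pool.Agent.Q15.DC

section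
variable {E : Type} [NormedField E] [IsUltrametricDist E] {G : Type} [Group G] [TopologicalSpace G]
  {n : ℕ} {N : Subgroup G} {π : OI E} {R : G → Matrix (Fin n) (Fin n) (OI E)}

theorem exists_DN (hπ0 : π ≠ 0)
    (hc : ∀ x ∈ N, ∀ i j, ‖(((R x - 1) i j : OI E) : E)‖ ≤ ‖(π : E)‖) :
    ∃ D : G → Matrix (Fin n) (Fin n) (OI E), ∀ x ∈ N, R x = 1 + π • D x := by
  classical
  have hπE : (π : E) ≠ 0 := fun h => hπ0 (Subtype.ext h)
  have key : ∀ x ∈ N, ∃ D : Matrix (Fin n) (Fin n) (OI E), R x = 1 + π • D := by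
    intro x hx
    have hmem : ∀ i j, (((R x - 1) i j : OI E) : E) / (π : E) ∈ OI E := by
      intro i j
      rw [mem_OI, norm_div]
      exact div_le_one_of_le₀ (hc x hx i j) (norm_nonneg _)
    refine ⟨Matrix.of fun i j => ⟨_, hmem i j⟩, ?_⟩
    rw [← sub_eq_iff_eq_add']
    ext i j
    show (((R x - 1) i j : OI E) : E) = (π : E) * ((((R x - 1) i j : OI E) : E) / (π : E))
    rw [mul_div_cancel₀ _ hπE]
  choose! D hD using key
  exact ⟨D, hD⟩

theorem cts_DN (hπ0 : π ≠ 0) (hR : Cts R) {D : G → Matrix (Fin n) (Fin n) (OI E)}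
    (hD : ∀ x ∈ N, R x = 1 + π • D x) : Cts fun y : N => D y := by
  have hπE : (π : E) ≠ 0 := fun h => hπ0 (Subtype.ext h)
  intro a b
  have h1 : (fun y : N => ((D y a b : OI E) : E)) =
      fun y : N => (((R (y : G) - 1) a b : OI E) : E) / (π : E) := by
    funext y
    rw [eq_div_iff hπE, hD y y.2, add_sub_cancel_left]
    show _ = (π : E) * ((D y a b : OI E) : E)
    rw [mul_comm]
  rw [h1]
  exact (((hR.sub (Cts.const 1)) a b).comp continuous_subtype_val).div_const _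

end

variable {k : Type} [Field k] [NumberField k] {E : Type} [NormedField E] [IsUltrametricDist E]
  {n : ℕ}

/-- the tame relation for elements of `N` -/
theorem rel_N {p : ℕ} (hp : p.Prime) (hpE0 : (p : E) ≠ 0) (hpE : ‖(p : E)‖ < 1) {π : OI E}
    (hπ0 : π ≠ 0) (hπ : ‖(π : E)‖ ≤ ‖(p : E)‖) {N : Subgroup (GF k)} [hN : N.Normal]
    (hNo : IsOpen (N : Set (GF k))) {R D : GF k → Matrix (Fin n) (Fin n) (OI E)}
    (hone : R 1 = 1) (hmul : ∀ g h, R (g * h) = R g * R h) (hcts : Cts R)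
    (hD : ∀ x ∈ N, R x = 1 + π • D x) {P : Ideal (OO k)} (hP : P.IsMaximal)
    (hpP : (p : OO k) ∉ P) {τ σ : GF k} (hτN : τ ∈ N) (hτ : InInertia P τ)
    (hσ : FrobAt (Ideal.absNorm (cm P)) P σ) :
    R σ * R τ = R τ ^ (Ideal.absNorm (cm P)) * R σ := by
  obtain ⟨l, hl, hpl, hlP⟩ := prime_ne hP hpP
  have hq0 := absNorm_ne_zero (cm_ne_bot hP)
  set q := Ideal.absNorm (cm P) with hq
  have hlaw : Law π fun x : N => D x := by
    intro x y
    apply smul_cancel hπ0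
    have h1 := hD _ (N.mul_mem x.2 y.2)
    rw [hmul, hD x x.2, hD y y.2] at h1
    have h2 : π • D (x * y) = (1 + π • D x) * (1 + π • D y) - 1 := by rw [h1]; abel
    show π • D ((x : GF k) * y) = _
    rw [h2]
    simp only [Matrix.add_mul, Matrix.mul_add, Matrix.one_mul, Matrix.mul_one, Matrix.smul_mul,
      Matrix.mul_smul, smul_add, smul_smul]
    abel
  have key := test E N p hp hpE0 hpE π hπ n (fun x : N => D x) hlaw (cts_DN hπ0 hcts hD)
    ⟨σ * τ * σ⁻¹, hN.conj_mem τ hτN σ⟩ (⟨τ, hτN⟩ ^ q)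
    fun H _ hH f hf => by
      rw [map_pow]
      exact tame k hp hl hpl hq0 N hNo H hH f hf P hP hlP ⟨τ, hτN⟩ σ hτ hσ
  have h1 : (1 : Matrix (Fin n) (Fin n) (OI E)) + π • D (σ * τ * σ⁻¹) = 1 + π • D (τ ^ q) := key
  rw [← hD _ (hN.conj_mem τ hτN σ), ← hD _ (N.pow_mem hτN q)] at h1
  have hpow : ∀ m : ℕ, R (τ ^ m) = R τ ^ m := by
    intro m
    induction m with
    | zero => rw [pow_zero, pow_zero, hone]
    | succ m ih => rw [pow_succ, pow_succ, hmul, ih]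
  calc R σ * R τ = R (σ * τ * σ⁻¹) * R σ := by rw [← hmul, ← hmul, inv_mul_cancel_right]
    _ = R τ ^ q * R σ := by rw [h1, hpow]

/-- the local conditions at a prime with residue field of order `q` and Frobenius element `σ` -/
def LocC {κ : Type} [Field κ] {G : Type} [Group G] (p s : ℕ) (ψ : G →* Multiplicative (ZMod p))
    {ι : Type} (r : G → Matrix (Fin n) (Fin n) κ) (P : ι → Matrix (Fin n) (Fin n) κ) (σ : G)
    (q : ℕ) : Prop :=
  (∀ X, r σ * X = (q : κ) • (X * r σ) → X = 0) ∨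
  ((∃ a : ℕ, q ^ (p - 1) = 1 + p ^ s * a ∧ Multiplicative.toAdd (ψ σ) = -(a : ZMod p) ∧ ¬ p ∣ a) ∧
    (((∀ X, r σ * X = X * r σ → ∀ i, P i * X = X * P i) ∧
      (∀ X, r σ * X = (q : κ) • (X * r σ) → ∀ i, P i * X * P i = 0)) ∨
     ((q : κ) = 1 ∧ ∀ X Y, r σ * X = X * r σ → r σ * Y = Y * r σ → X * Y = Y * X)))

/-- the class hypothesis -/
def ClsC {κ : Type} [Field κ] (p : ℕ) (N : Subgroup (GF k)) (ψ : GF k → κ) {ι : Type}
    [Fintype ι] (r : GF k → Matrix (Fin n) (Fin n) κ) (P : ι → Matrix (Fin n) (Fin n) κ) : Prop :=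
  ∀ f : GF k → Matrix (Fin n) (Fin n) κ, (∀ x ∈ N, ∀ y ∈ N, f (x * y) = f x + f y) →
    (∀ g, ∀ x ∈ N, f (g * x * g⁻¹) = r g * f x * r g⁻¹) →
    IsOpen {x | x ∈ N ∧ f x = 0} →
    (∀ P : Ideal (OO k), P.IsMaximal → (p : OO k) ∉ P → ∀ τ ∈ N, InInertia P τ → f τ = 0) →
    ∃ c : ι → κ, ∀ x ∈ N, f x = ψ x • ∑ i, c i • P i

theorem one_add_pow' (x m : ℕ) : ∃ b, (1 + x) ^ m = 1 + m * x + x ^ 2 * b := by
  induction m with
  | zero => exact ⟨0, by simp⟩
  | succ m ih =>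
    obtain ⟨b, hb⟩ := ih
    exact ⟨m + b * (1 + x), by rw [pow_succ, hb]; ring⟩

theorem isOpen_finite {N : Subgroup (GF k)} (hNo : IsOpen (N : Set (GF k))) :
    Finite (GF k ⧸ N) := Subgroup.quotient_finite_of_isOpen N hNo

theorem pow_index {G : Type} [Group G] (N : Subgroup G) [N.Normal] (g : G) (m : ℕ) :
    g ^ (m * N.index) ∈ N := by
  rw [← QuotientGroup.eq_one_iff, QuotientGroup.mk_pow, mul_comm, pow_mul]
  have h1 : (g : G ⧸ N) ^ N.index = 1 := by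
    rw [Subgroup.index]
    exact pow_card_eq_one'
  rw [h1, one_pow]

/-- **representations of number fields whose reduction is multiplicity free** -/
theorem main1 [IsAlgClosed E] {p s : ℕ} [hp : Fact p.Prime] (hp2 : p ≠ 2) (hs : s ≠ 0)
    (hpE0 : (p : E) ≠ 0) (hpE : ‖(p : E)‖ < 1) (N : Subgroup (GF k)) [hN : N.Normal]
    (hNo : IsOpen (N : Set (GF k))) (hidx : ¬ p ∣ N.index) {S : Set (Ideal (𝓞 k))}
    (hS : ∀ v ∈ S, (p : 𝓞 k) ∉ v) (ψ : GF k →* Multiplicative (ZMod p))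
    (ψ' : GF k → ResidueField (OI E))
    (hψ' : ∀ g (m : ℕ), Multiplicative.toAdd (ψ g) = m → ψ' g = m)
    (ρ : GF k →* GL (Fin n) (OI E))
    (hρ : Cts fun g => (ρ g : Matrix (Fin n) (Fin n) (OI E)))
    (hc : ∀ x ∈ N, ∀ i j,
      ‖((((ρ x : Matrix (Fin n) (Fin n) (OI E)) - 1) i j : OI E) : E)‖ ≤ ‖(p : E) ^ s‖)
    (hur : ∀ P : Ideal (OO k), P.IsMaximal → cm P ∉ S → (p : OO k) ∉ P →
      ∀ τ ∈ N, InInertia P τ → ρ τ = 1)
    {ι : Type} [Fintype ι] [DecidableEq ι] {P : ι → Matrix (Fin n) (Fin n) (ResidueField (OI E))}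
    (hι : Fintype.card ι < p)
    (hP : Res N (fun g => red (ρ g : Matrix (Fin n) (Fin n) (OI E))) P)
    (hL : ∀ Q : Ideal (OO k), Q.IsMaximal → cm Q ∈ S → ∃ σ, FrobAt (Ideal.absNorm (cm Q)) Q σ ∧
      LocC p s ψ (fun g => red (ρ g : Matrix (Fin n) (Fin n) (OI E))) P σ
        (Ideal.absNorm (cm Q)))
    (hC : ClsC p N ψ' (fun g => red (ρ g : Matrix (Fin n) (Fin n) (OI E))) P) :
    ∃ W : ℕ → Submodule E (Fin n → E),
      Filt N (fun g => (ρ g : Matrix (Fin n) (Fin n) (OI E))) (Fintype.card ι) W := by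
  obtain ⟨R, hR⟩ : ∃ R : GF k → Matrix (Fin n) (Fin n) (OI E), ∀ g, R g =
    (ρ g : Matrix (Fin n) (Fin n) (OI E)) := ⟨_, fun _ => rfl⟩
  have hRf : (fun g => (ρ g : Matrix (Fin n) (Fin n) (OI E))) = R := funext fun g => (hR g).symm
  have hRr : (fun g => red (ρ g : Matrix (Fin n) (Fin n) (OI E))) = fun g => red (R g) :=
    funext fun g => by rw [hR]
  rw [hRr] at hP hL hC
  rw [hRf] at hρ ⊢
  have hchar : CharP (ResidueField (OI E)) p := charP_res base hp.out hpE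
  have hp0 : (p : OI E) ≠ 0 := by
    intro h0
    apply hpE0
    have h1 := congrArg (fun x : OI E => (x : E)) h0
    simpa using h1
  have hπ0 : ((p : OI E) ^ s) ≠ 0 := pow_ne_zero _ hp0
  have hcoe : (((p : OI E) ^ s : OI E) : E) = (p : E) ^ s := by push_cast; rfl
  have hπm : (p : OI E) ^ s ∈ maximalIdeal (OI E) := by
    rw [← residue_eq_zero_iff, map_pow, map_natCast, CharP.cast_eq_zero, zero_pow hs]
  have hπ : ‖(((p : OI E) ^ s : OI E) : E)‖ ≤ ‖(p : E)‖ := by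
    rw [hcoe, norm_pow]
    exact pow_le_of_le_one (norm_nonneg _) hpE.le hs
  have hone : R 1 = 1 := by rw [hR, map_one]; rfl
  have hmul : ∀ g h, R (g * h) = R g * R h := fun g h => by
    rw [hR, hR, hR, map_mul]; rfl
  obtain ⟨D, hD⟩ := exists_DN (N := N) (π := (p : OI E) ^ s) (R := R) hπ0 (fun x hx i j => by
    rw [hR, hcoe]
    exact hc x hx i j)
  set h := (p - 1) * N.index with hh
  set U : Set (GF k) := {τ | τ ∈ N ∧ ∃ Q : Ideal (OO k), Q.IsMaximal ∧ InInertia Q τ ∧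
    (p : OO k) ∉ Q ∧ cm Q ∉ S} with hU
  set T : GF k → GF k → ℕ → Prop := fun τ σ q => τ ∈ N ∧ ∃ Q : Ideal (OO k), Q.IsMaximal ∧
    InInertia Q τ ∧ cm Q ∈ S ∧ q = Ideal.absNorm (cm Q) ∧ FrobAt q Q σ ∧
    LocC p s ψ (fun g => red (R g)) P σ q with hT
  have hB : Base E (GF k) p ((p : OI E) ^ s) N U T h := by
    refine ⟨hp.out, hp2, hpE, hπ0, hπm, fun g x hx => hN.conj_mem x hx g, hNo, fun u hu => hu.1,
      fun τ σ q hq => hq.1, fun g => pow_index N g _, ?_, isOpen_finite hNo⟩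
    rw [← Subgroup.index, Ne, CharP.cast_eq_zero_iff _ p]
    exact hidx
  have hSys : Sys ((p : OI E) ^ s) N U T R D := by
    refine ⟨hone, hmul, hρ, hD, ?_, ?_⟩
    · rintro u ⟨huN, Q, hQ, hu, hpQ, hQS⟩
      rw [hR, hur Q hQ hQS hpQ u huN hu]
      rfl
    · rintro τ σ q ⟨hτN, Q, hQ, hτ, hQS, rfl, hσ, -⟩
      exact rel_N hp.out hpE0 hpE hπ0 hπ hNo hone hmul hρ hD hQ
        (fun h0 => hS _ hQS (natCast_mem_cm.2 h0)) hτN hτ hσ
  refine filt hB (Fintype.card ι) n R D ι P rfl hι hSys hP (ψ := ψ') ?_ ?_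
  · rintro τ σ q ⟨-, Q, hQ, -, -, hq, -, hloc⟩
    rcases hloc with h1 | ⟨⟨a, ha1, ha2, ha3⟩, h1⟩
    · exact Or.inl h1
    · refine Or.inr ⟨?_, h1⟩
      obtain ⟨b, hb⟩ := one_add_pow' (p ^ s * a) N.index
      have hqh : q ^ h = 1 + p ^ s * (N.index * a + p ^ s * (a ^ 2 * b)) := by
        rw [hh, pow_mul, ha1, hb]
        ring
      have hres : residue (OI E) ((N.index * a + p ^ s * (a ^ 2 * b) : ℕ) : OI E) =
          ((N.index * a : ℕ) : ResidueField (OI E)) := by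
        rw [map_natCast]
        push_cast
        rw [CharP.cast_eq_zero (ResidueField (OI E)) p, zero_pow hs, zero_mul, add_zero]
      have hval : ψ' (σ ^ h) = ((N.index * a : ℕ) : ResidueField (OI E)) := by
        apply hψ'
        rw [map_pow, toAdd_pow, nsmul_eq_mul, ha2, hh]
        have hp1 : ((p - 1 : ℕ) : ZMod p) = -1 := by
          rw [Nat.cast_sub hp.out.one_le, Nat.cast_one, ZMod.natCast_self, zero_sub]
        push_cast
        rw [hp1]
        ring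
      refine ⟨((N.index * a + p ^ s * (a ^ 2 * b) : ℕ) : OI E), ?_, ?_, ?_⟩
      · rw [hqh]
        push_cast
        ring
      · rw [hres, hval]
      · rw [hval, Ne, CharP.cast_eq_zero_iff _ p]
        intro h2
        rcases (Nat.Prime.dvd_mul hp.out).1 h2 with h3 | h3
        · exact hidx h3
        · exact ha3 h3
  · intro f hadd hequi hopen hfU hfT
    refine hC f hadd hequi hopen fun Q hQ hpQ τ hτN hτ => ?_
    by_cases hQS : cm Q ∈ S
    · obtain ⟨σ, hσ, hloc⟩ := hL Q hQ hQS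
      exact hfT τ σ _ ⟨hτN, Q, hQ, hτ, hQS, rfl, hσ, hloc⟩
    · exact hfU τ ⟨hτN, Q, hQ, hτ, hpQ, hQS⟩

end Pool.Agent.Q15.DC
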