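import Pool.Agent.Q15.DC.A8

/-! Representations whose reduction is a sum of distinct characters (project DC). -/

set_option autoImplicit false
set_option linter.unusedSectionVars false

open NumberField Matrix IsLocalRing Pool.Agent.W569.FM Pool.Agent.W571.FM Pool.Agent.W569.UF
  Pool.Agent.Q15.FMNT Pool.Agent.Q15.FMMain Pool.Agent.Q15.FMScal Pool.Agent.Q15.FM2C
  Pool.Agent.Q15.JT

namespace Pool.Agent.Q15.DC

section transfer
variable {G : Type} [Group G] {A : Type} [AddCommGroup A] {N : Subgroup G}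

theorem out_mem (N : Subgroup G) (g : G) (q : G ⧸ N) : (g • q).out⁻¹ * g * q.out ∈ N := by
  rw [mul_assoc, ← QuotientGroup.eq, QuotientGroup.out_eq']
  conv_lhs => rw [← QuotientGroup.out_eq' q]
  rfl

/-- the transfer of an additive function on `N` -/
noncomputable def tr (N : Subgroup G) [Fintype (G ⧸ N)] (f : G → A) (g : G) : A :=
  ∑ q : G ⧸ N, f ((g • q).out⁻¹ * g * q.out)

theorem tr_mul [Fintype (G ⧸ N)] {f : G → A} (hadd : ∀ x ∈ N, ∀ y ∈ N, f (x * y) = f x + f y)
    (g h : G) : tr N f (g * h) = tr N f g + tr N f h := by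
  unfold tr
  have h1 : ∑ q : G ⧸ N, f ((g • q).out⁻¹ * g * q.out) =
      ∑ q : G ⧸ N, f ((g • (h • q)).out⁻¹ * g * (h • q).out) :=
    (Fintype.sum_equiv (MulAction.toPerm h) _ _ fun q => rfl).symm
  rw [h1, ← Finset.sum_add_distrib]
  refine Finset.sum_congr rfl fun q _ => ?_
  rw [← hadd _ (out_mem N g (h • q)) _ (out_mem N h q), mul_smul]
  congr 1
  group

theorem tr_mem [N.Normal] [Fintype (G ⧸ N)] {f : G → A} (hinv : ∀ g, ∀ x ∈ N, f (g * x * g⁻¹) = f x)
    {x : G} (hx : x ∈ N) : tr N f x = Fintype.card (G ⧸ N) • f x := by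
  unfold tr
  have h1 : ∀ q : G ⧸ N, f ((x • q).out⁻¹ * x * q.out) = f x := by
    intro q
    have h2 : x • q = q := by
      conv_lhs => rw [← QuotientGroup.out_eq' q]
      conv_rhs => rw [← QuotientGroup.out_eq' q]
      show ((x * q.out : G) : G ⧸ N) = _
      rw [eq_comm, QuotientGroup.eq, ← mul_assoc]
      have h3 := ‹N.Normal›.conj_mem x hx q.out⁻¹
      rwa [inv_inv] at h3
    rw [h2]
    have h3 := hinv q.out⁻¹ x hx
    rwa [inv_inv] at h3
  rw [Finset.sum_congr rfl fun q _ => h1 q, Finset.sum_const, Finset.card_univ]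

end transfer

variable {k : Type} [Field k] [NumberField k]

/-- invariant additive functions on `N` which are unramified outside `p` -/
theorem inv_char {p : ℕ} [hp : Fact p.Prime] {κ : Type} [Field κ] [CharP κ p]
    {ψ : GF k →* Multiplicative (ZMod p)} (h : OneE p ψ) {N : Subgroup (GF k)} [hN : N.Normal]
    (hNo : IsOpen (N : Set (GF k))) (hidx : ¬ p ∣ N.index) {f : GF k → κ}
    (hadd : ∀ x ∈ N, ∀ y ∈ N, f (x * y) = f x + f y)
    (hinv : ∀ g, ∀ x ∈ N, f (g * x * g⁻¹) = f x) (hopen : IsOpen {x | x ∈ N ∧ f x = 0})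
    (hur : ∀ P : Ideal (OO k), P.IsMaximal → (p : OO k) ∉ P → ∀ τ ∈ N, InInertia P τ → f τ = 0) :
    ∃ c : κ, ∀ x ∈ N, f x = ZMod.castHom (dvd_refl p) κ (Multiplicative.toAdd (ψ x)) * c := by
  obtain ⟨γ, hγ⟩ := exists_gen h
  have hfin := isOpen_finite hNo
  have hft : Fintype (GF k ⧸ N) := Fintype.ofFinite _
  have hm : ((Fintype.card (GF k ⧸ N) : ℕ) : κ) ≠ 0 := by
    rw [← Nat.card_eq_fintype_card, ← Subgroup.index, Ne, CharP.cast_eq_zero_iff _ p]
    exact hidx
  have hV := tr_mul (N := N) hadd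
  have hV1 : tr N f 1 = 0 := by
    have h1 := hV 1 1
    rw [mul_one] at h1
    exact left_eq_add.1 h1
  have hVo : IsOpen {g | tr N f g = 0} := by
    let H : Subgroup (GF k) :=
      { carrier := {g | tr N f g = 0}
        mul_mem' := fun {a b} ha hb => by
          show tr N f (a * b) = 0
          rw [hV, show tr N f a = 0 from ha, show tr N f b = 0 from hb, add_zero]
        one_mem' := hV1
        inv_mem' := fun {a} ha => by
          show tr N f a⁻¹ = 0
          have h2 := hV a a⁻¹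
          rw [mul_inv_cancel, hV1, show tr N f a = 0 from ha, zero_add] at h2
          exact h2.symm }
    have hf1 : f 1 = 0 := by
      have h1 := hadd 1 N.one_mem 1 N.one_mem
      rw [mul_one] at h1
      exact left_eq_add.1 h1
    refine Subgroup.isOpen_of_mem_nhds H (g := 1) (Filter.mem_of_superset
      (hopen.mem_nhds ⟨N.one_mem, hf1⟩) fun x hx => ?_)
    show tr N f x = 0
    rw [tr_mem hinv hx.1, hx.2, smul_zero]
  have hpow : ∀ g (m : ℕ), tr N f (g ^ m) = m * tr N f g := by
    intro g m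
    induction m with
    | zero => rw [pow_zero, hV1, Nat.cast_zero, zero_mul]
    | succ m ih => rw [pow_succ, hV, ih, Nat.cast_succ]; ring
  have key := one_char' (κ := κ) h hγ hV hVo fun P hP hpP τ hτ => by
    have h1 : τ ^ (1 * N.index) ∈ N := pow_index N τ 1
    have h2 : InInertia P (τ ^ (1 * N.index)) := by
      have h3 : ∀ m : ℕ, InInertia P (τ ^ m) := by
        intro m
        induction m with
        | zero => rw [pow_zero]; exact inertia_one P
        | succ m ih => rw [pow_succ]; exact inertia_mul' ih hτ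
      exact h3 _
    have h4 := hpow τ (1 * N.index)
    rw [tr_mem hinv h1, hur P hP hpP _ h1 h2, smul_zero, one_mul] at h4
    refine (mul_eq_zero.1 h4.symm).resolve_left ?_
    rw [CharP.cast_eq_zero_iff _ p]
    exact hidx
  refine ⟨((Fintype.card (GF k ⧸ N) : ℕ) : κ)⁻¹ * tr N f γ, fun x hx => ?_⟩
  have h1 := key x
  rw [tr_mem hinv hx, nsmul_eq_mul] at h1
  rw [mul_left_comm, ← h1, inv_mul_cancel_left₀ hm]

section diag
variable {κ : Type} [Field κ] {n : ℕ}

/-- the projection to a coordinate -/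
def pr (κ : Type) [Field κ] {n : ℕ} (i : Fin n) : Matrix (Fin n) (Fin n) κ :=
  Matrix.diagonal (Pi.single i 1)

theorem sum_pr (c : Fin n → κ) : ∑ i, c i • pr κ i = Matrix.diagonal c := by
  ext a b
  rw [Matrix.sum_apply]
  simp only [Matrix.smul_apply, pr, smul_eq_mul]
  by_cases hab : a = b
  · subst hab
    rw [Finset.sum_eq_single a]
    · rw [Matrix.diagonal_apply_eq, Matrix.diagonal_apply_eq, Pi.single_eq_same, mul_one]
    · intro i _ hi
      rw [Matrix.diagonal_apply_eq, Pi.single_eq_of_ne hi.symm, mul_zero]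
    · intro h0
      exact absurd (Finset.mem_univ a) h0
  · rw [Matrix.diagonal_apply_ne _ hab]
    refine Finset.sum_eq_zero fun i _ => ?_
    rw [Matrix.diagonal_apply_ne _ hab, mul_zero]

/-- a matrix which commutes with a diagonal matrix with distinct entries is diagonal -/
theorem diag_of_comm {d : Fin n → κ} (hd : ∀ i j, i ≠ j → d i ≠ d j)
    {X : Matrix (Fin n) (Fin n) κ} (hX : Matrix.diagonal d * X = X * Matrix.diagonal d) :
    X = Matrix.diagonal fun i => X i i := by
  ext i j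
  by_cases hij : i = j
  · subst hij
    rw [Matrix.diagonal_apply_eq]
  · rw [Matrix.diagonal_apply_ne _ hij]
    have h1 := congrFun (congrFun hX i) j
    rw [Matrix.diagonal_mul, Matrix.mul_diagonal, mul_comm (X i j), ← sub_eq_zero,
      ← sub_mul] at h1
    exact (mul_eq_zero.1 h1).resolve_left (sub_ne_zero.2 (hd i j hij))

variable {G : Type} [Group G]

theorem res_diag {N : Subgroup G} {r : G → Matrix (Fin n) (Fin n) κ} {χ : Fin n → G → κ}
    (hr : ∀ g, r g = Matrix.diagonal fun i => χ i g) (hone : ∀ x ∈ N, r x = 1)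
    (hmul : ∀ g h, r (g * h) = r g * r h) (hχ : ∀ i j, i ≠ j → ∃ g, χ i g ≠ χ j g) :
    Res N r fun i => pr κ i := by
  refine ⟨hone, hmul, fun i h0 => ?_, fun i => ?_, fun i j hij => ?_, ?_, fun i g => ?_,
    fun X hX => ⟨fun i => X i i, ?_⟩⟩
  · have h1 := congrFun (congrFun h0 i) i
    rw [pr, Matrix.diagonal_apply_eq, Pi.single_eq_same, Matrix.zero_apply] at h1
    exact one_ne_zero h1
  · rw [pr, Matrix.diagonal_mul_diagonal]
    congr 1
    funext j
    by_cases hj : j = i
    · rw [hj, Pi.single_eq_same, mul_one]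
    · rw [Pi.single_eq_of_ne hj, mul_zero]
  · show pr κ i * pr κ j = 0
    rw [pr, pr, Matrix.diagonal_mul_diagonal, ← Matrix.diagonal_zero]
    congr 1
    funext l
    by_cases hl : l = i
    · rw [hl, Pi.single_eq_of_ne (M := fun _ => κ) hij, mul_zero]
    · rw [Pi.single_eq_of_ne hl, zero_mul]
  · have h1 := sum_pr (κ := κ) (n := n) fun _ => 1
    simp only [one_smul] at h1
    rw [h1]
    exact Matrix.diagonal_one
  · rw [hr, pr, Matrix.diagonal_mul_diagonal, Matrix.diagonal_mul_diagonal]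
    congr 1
    funext j
    exact mul_comm _ _
  · rw [sum_pr]
    ext i j
    by_cases hij : i = j
    · rw [hij, Matrix.diagonal_apply_eq]
    · rw [Matrix.diagonal_apply_ne _ hij]
      obtain ⟨g, hg⟩ := hχ i j hij
      have h1 := congrFun (congrFun (hX g) i) j
      rw [hr, Matrix.diagonal_mul, Matrix.mul_diagonal, mul_comm (X i j), ← sub_eq_zero,
        ← sub_mul] at h1
      exact (mul_eq_zero.1 h1).resolve_left (sub_ne_zero.2 hg.symm)

/-- the local conditions for sums of characters -/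
theorem loc_diag {p s : ℕ} {ψ : G →* Multiplicative (ZMod p)}
    {r : G → Matrix (Fin n) (Fin n) κ} {χ : Fin n → G → κ}
    (hr : ∀ g, r g = Matrix.diagonal fun i => χ i g) (hne : ∀ i g, χ i g ≠ 0) {σ : G} {q : ℕ}
    (h : (∀ i j, χ i σ ≠ q * χ j σ) ∨
      ((∃ a : ℕ, q ^ (p - 1) = 1 + p ^ s * a ∧ Multiplicative.toAdd (ψ σ) = -(a : ZMod p) ∧
        ¬ p ∣ a) ∧ ∀ i j, i ≠ j → χ i σ ≠ χ j σ)) :
    LocC p s ψ r (fun i => pr κ i) σ q := by
  have hent : ∀ X i j, r σ * X = (q : κ) • (X * r σ) → (χ i σ - q * χ j σ) * X i j = 0 := by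
    intro X i j hX
    have h1 := congrFun (congrFun hX i) j
    rw [hr, Matrix.smul_apply, Matrix.diagonal_mul, Matrix.mul_diagonal, smul_eq_mul] at h1
    rw [sub_mul, h1]
    ring
  rcases h with h | ⟨h1, h2⟩
  · left
    intro X hX
    ext i j
    exact (mul_eq_zero.1 (hent X i j hX)).resolve_left (sub_ne_zero.2 (h i j))
  · refine Or.inr ⟨h1, ?_⟩
    have hd : ∀ X, r σ * X = X * r σ → X = Matrix.diagonal fun i => X i i := by
      intro X hX
      rw [hr] at hX
      exact diag_of_comm h2 hX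
    by_cases hq : (q : κ) = 1
    · right
      refine ⟨hq, fun X Y hX hY => ?_⟩
      rw [hd X hX, hd Y hY, Matrix.diagonal_mul_diagonal, Matrix.diagonal_mul_diagonal]
      congr 1
      funext j
      exact mul_comm _ _
    · left
      refine ⟨fun X hX i => ?_, fun X hX i => ?_⟩
      · show pr κ i * X = X * pr κ i
        rw [hd X hX, pr, Matrix.diagonal_mul_diagonal, Matrix.diagonal_mul_diagonal]
        congr 1
        funext j
        exact mul_comm _ _
      · ext a b
        show (pr κ i * X * pr κ i) a b = 0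
        rw [pr, Matrix.mul_diagonal, Matrix.diagonal_mul]
        by_cases ha : a = i
        · by_cases hb : b = i
          · subst ha
            subst hb
            have h3 : (1 - (q : κ)) * χ b σ * X b b = 0 := by
              have h4 := hent X b b hX
              linear_combination h4
            have h5 : (1 - (q : κ)) * χ b σ ≠ 0 :=
              mul_ne_zero (sub_ne_zero.2 (Ne.symm hq)) (hne _ _)
            rw [(mul_eq_zero.1 h3).resolve_left h5, mul_zero, zero_mul]
          · rw [Pi.single_eq_of_ne hb, mul_zero]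
        · rw [Pi.single_eq_of_ne ha, zero_mul, zero_mul]

end diag

/-- the class hypothesis for sums of characters -/
theorem cls_diag {p : ℕ} [hp : Fact p.Prime] {κ : Type} [Field κ] [CharP κ p] {n : ℕ}
    {ψ : GF k →* Multiplicative (ZMod p)} (h : OneE p ψ) {N : Subgroup (GF k)} [hN : N.Normal]
    (hNo : IsOpen (N : Set (GF k))) (hidx : ¬ p ∣ N.index)
    {r : GF k → Matrix (Fin n) (Fin n) κ} {χ : Fin n → GF k → κ}
    (hr : ∀ g, r g = Matrix.diagonal fun i => χ i g) (hχ1 : ∀ i g, χ i g * χ i g⁻¹ = 1)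
    (hcls : ∀ i j, i ≠ j → ∀ f : GF k → κ, (∀ x ∈ N, ∀ y ∈ N, f (x * y) = f x + f y) →
      (∀ g, ∀ x ∈ N, f (g * x * g⁻¹) = χ i g * χ j g⁻¹ * f x) → IsOpen {x | x ∈ N ∧ f x = 0} →
      (∀ P : Ideal (OO k), P.IsMaximal → (p : OO k) ∉ P → ∀ τ ∈ N, InInertia P τ → f τ = 0) →
      ∀ x ∈ N, f x = 0) :
    ClsC p N (fun g => ZMod.castHom (dvd_refl p) κ (Multiplicative.toAdd (ψ g))) r
      fun i => pr κ i := by
  intro f hadd hequi hopen hur
  have hf1 : f 1 = 0 := by
    have h1 := hadd 1 N.one_mem 1 N.one_mem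
    rw [mul_one] at h1
    exact left_eq_add.1 h1
  have hadd' : ∀ i j, ∀ x ∈ N, ∀ y ∈ N, f (x * y) i j = f x i j + f y i j := by
    intro i j x hx y hy
    rw [hadd x hx y hy, Matrix.add_apply]
  have hopen' : ∀ i j, IsOpen {x | x ∈ N ∧ f x i j = 0} := by
    intro i j
    refine open_sub (hadd' i j) hopen ⟨N.one_mem, hf1⟩ fun x hx => ⟨hx.1, ?_⟩
    rw [hx.2, Matrix.zero_apply]
  have hequi' : ∀ i j, ∀ g, ∀ x ∈ N, f (g * x * g⁻¹) i j = χ i g * χ j g⁻¹ * f x i j := by
    intro i j g x hx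
    rw [hequi g x hx, hr, hr, Matrix.mul_diagonal, Matrix.diagonal_mul]
    ring
  have hur' : ∀ i j, ∀ P : Ideal (OO k), P.IsMaximal → (p : OO k) ∉ P → ∀ τ ∈ N,
      InInertia P τ → f τ i j = 0 := by
    intro i j P hP hpP τ hτN hτ
    rw [hur P hP hpP τ hτN hτ, Matrix.zero_apply]
  have hdiag : ∀ i, ∃ c : κ, ∀ x ∈ N,
      f x i i = ZMod.castHom (dvd_refl p) κ (Multiplicative.toAdd (ψ x)) * c := fun i =>
    inv_char h hNo hidx (hadd' i i) (fun g x hx => by
      rw [hequi' i i g x hx, hχ1, one_mul]) (hopen' i i) (hur' i i)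
  choose c hc using hdiag
  refine ⟨c, fun x hx => ?_⟩
  rw [sum_pr]
  ext i j
  rw [Matrix.smul_apply, smul_eq_mul]
  by_cases hij : i = j
  · subst hij
    rw [Matrix.diagonal_apply_eq, hc i x hx]
  · rw [Matrix.diagonal_apply_ne _ hij, mul_zero]
    exact hcls i j hij (fun x => f x i j) (hadd' i j) (hequi' i j) (hopen' i j) (hur' i j) x hx

end Pool.Agent.Q15.DC
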